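import Pool.Agent.Helper54.SLC.Main
import Pool.Agent.Helper91.SLC.Pt

/-! ROW SLICE of DGR: charts of the hull of a form and their slices. -/

set_option autoImplicit false

namespace Pool.Agent.Helper54.SLC

theorem ptP (m D : ℕ) : PtP m D := Pool.Agent.Helper91.SLC.slice_pt m D

/-- ROW SLICE -/
theorem slice : ∀ d D D' K : ℕ, Pool.Agent.Helper48.DGR.SliceP d D' D K := fun d D D' K => slice_of ptP d D D' K

end Pool.Agent.Helper54.SLC
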