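import Pool.Agent.Helper76.RL.Fof
import Pool.Agent.Helper76.RL.Interp

/-! SLICE, piece 2: real polynomial approximation of holomorphic functions on a cube; composition of polynomials. -/

set_option autoImplicit false

namespace Pool.Agent.Helper54.SLC

open MvPolynomial Metric Set
open Pool.Agent.Helper76.RL (rc approx totalDegree_aeval_le' eval_aeval' rc_norm)
open Pool.Agent.Helper3.LF (Mon pol vv exists_pol eval_pol coeff_pol vv_apply)

variable {m : ℕ}

/-- real parts of the coefficients -/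
noncomputable def rep (P : MvPolynomial (Fin m) ℂ) : MvPolynomial (Fin m) ℝ :=
  ∑ e ∈ P.support, monomial e (P.coeff e).re

lemma rep_deg (P : MvPolynomial (Fin m) ℂ) : (rep P).totalDegree ≤ P.totalDegree := by
  unfold rep
  refine (totalDegree_finsetSum _ _).trans (Finset.sup_le fun e he => ?_)
  exact (totalDegree_monomial_le _ _).trans (le_totalDegree he)

lemma eval_rep (P : MvPolynomial (Fin m) ℂ) (x : Fin m → ℝ) : eval x (rep P) = (eval (rc x) P).re := by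
  unfold rep
  rw [map_sum, eval_eq', Complex.re_sum]
  refine Finset.sum_congr rfl fun e _ => ?_
  rw [eval_monomial, Finsupp.prod_fintype _ _ (fun _ => pow_zero _)]
  have h1 : (∏ i, rc x i ^ e i) = ((∏ i, x i ^ e i : ℝ) : ℂ) := by
    push_cast
    rfl
  rw [h1, Complex.re_mul_ofReal]

/-- degree of a composition -/
lemma totalDegree_aeval_le {n k : ℕ} {F : Type} [CommRing F] (θ : Fin n → MvPolynomial (Fin k) F) {M : ℕ}
    (hθ : ∀ i, (θ i).totalDegree ≤ M) (f : MvPolynomial (Fin n) F) :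
    (aeval θ f).totalDegree ≤ f.totalDegree * M := by
  classical
  rw [aeval_def, eval₂_eq']
  refine (totalDegree_finsetSum _ _).trans (Finset.sup_le fun e he => ?_)
  have h1 : (∏ j, θ j ^ e j).totalDegree ≤ ∑ j, e j * M := by
    refine (totalDegree_finsetProd _ _).trans (Finset.sum_le_sum fun j _ => ?_)
    exact (totalDegree_pow _ _).trans (Nat.mul_le_mul_left _ (hθ j))
  have h2 : ∑ j, e j ≤ f.totalDegree := by
    have := le_totalDegree he
    rwa [Finsupp.sum_fintype _ _ (fun _ => rfl)] at this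
  refine (totalDegree_mul _ _).trans ?_
  have h3 : (algebraMap F (MvPolynomial (Fin k) F) (coeff e f)).totalDegree = 0 := totalDegree_C _
  rw [h3, zero_add]
  refine h1.trans ?_
  rw [← Finset.sum_mul]
  exact Nat.mul_le_mul_right _ h2

lemma eval_aevalR {n k : ℕ} (θ : Fin n → MvPolynomial (Fin k) ℝ) (f : MvPolynomial (Fin n) ℝ) (x : Fin k → ℝ) :
    eval x (aeval θ f) = eval (fun i => eval x (θ i)) f := by
  rw [map_aeval]
  have h1 : (eval x).comp (algebraMap ℝ (MvPolynomial (Fin k) ℝ)) = RingHom.id ℝ := by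
    ext a
    simp
  rw [h1]
  rfl

/-- REAL POLYNOMIAL APPROXIMATION on the cube of half side `ρ` -/
theorem approx_cube (m K : ℕ) : ∃ C : ℝ, 8 ≤ C ∧ ∀ R ρ M : ℝ, 1 ≤ ρ → 8 * ρ ≤ R → 0 ≤ M →
    ∀ F : (Fin m → ℂ) → ℂ, DifferentiableOn ℂ F (ball 0 R) → (∀ y ∈ ball (0 : Fin m → ℂ) R, ‖F y‖ ≤ M) →
    ∃ P : MvPolynomial (Fin m) ℝ, P.totalDegree ≤ m * K ∧ ∀ y : Fin m → ℝ, (∀ i, |y i| ≤ ρ) →
      |(F (rc y)).re - eval y P| ≤ C * M * (4 * ρ / R) ^ (K + 1) := by
  obtain ⟨C, hC, hap⟩ := approx m K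
  refine ⟨C + 8, by linarith, ?_⟩
  intro R ρ M hρ hR hM F hF hFM
  have hρ0 : 0 < ρ := by linarith
  have hR0 : 0 < R := by linarith
  set S : ℝ := R / (4 * ρ) with hS
  have hS2 : 2 ≤ S := by
    rw [hS, le_div_iff₀ (by positivity)]
    linarith
  set L : (Fin m → ℂ) → Fin m → ℂ := fun Y i => (ρ : ℂ) * (2 * Y i - 1) with hL
  have hLm : ∀ Y ∈ closedBall (0 : Fin m → ℂ) S, L Y ∈ ball (0 : Fin m → ℂ) R := by
    intro Y hY
    rw [mem_closedBall_zero_iff] at hY
    rw [mem_ball_zero_iff]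
    have h1 : ‖L Y‖ ≤ ρ * (2 * S + 1) := by
      rw [pi_norm_le_iff_of_nonneg (by positivity)]
      intro i
      show ‖(ρ : ℂ) * (2 * Y i - 1)‖ ≤ _
      rw [norm_mul, Complex.norm_real, Real.norm_eq_abs, abs_of_pos hρ0]
      refine mul_le_mul_of_nonneg_left ?_ hρ0.le
      refine (norm_sub_le _ _).trans ?_
      rw [norm_mul, norm_one, Complex.norm_ofNat]
      have := (norm_le_pi_norm Y i).trans hY
      linarith
    refine lt_of_le_of_lt h1 ?_
    have h2 : ρ * (4 * S) = R := by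
      rw [hS]
      field_simp
    nlinarith
  have hLd : Differentiable ℂ L := by
    rw [differentiable_pi]
    intro i
    show Differentiable ℂ fun Y : Fin m → ℂ => (ρ : ℂ) * (2 * Y i - 1)
    exact (((differentiable_apply i).const_mul 2).sub_const 1).const_mul _
  obtain ⟨P, hP1, -, hP3⟩ := hap S hS2 M hM (fun Y => F (L Y)) (hF.comp hLd.differentiableOn hLm)
    (fun Y hY => hFM _ (hLm Y hY))
  set θ : Fin m → MvPolynomial (Fin m) ℂ := fun i => MvPolynomial.C ((2 * ρ : ℂ)⁻¹) * X i + MvPolynomial.C (2⁻¹) with hθ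
  have hθd : ∀ i, (θ i).totalDegree ≤ 1 := by
    intro i
    refine (totalDegree_add _ _).trans (max_le ?_ ?_)
    · refine (totalDegree_mul _ _).trans ?_
      rw [totalDegree_C, zero_add, totalDegree_X]
    · rw [totalDegree_C]
      exact Nat.zero_le _
  refine ⟨rep (aeval θ P), (rep_deg _).trans ((totalDegree_aeval_le' θ hθd P).trans hP1), ?_⟩
  intro y hy
  have h1 : ∀ i, 0 ≤ (y i / ρ + 1) / 2 ∧ (y i / ρ + 1) / 2 ≤ 1 := by
    intro i
    have h2 := abs_le.mp (hy i)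
    have h3 : -1 ≤ y i / ρ := by
      rw [le_div_iff₀ hρ0]
      linarith [h2.1]
    have h4 : y i / ρ ≤ 1 := by
      rw [div_le_iff₀ hρ0]
      linarith [h2.2]
    constructor <;> linarith
  have h2 := hP3 (fun i => (y i / ρ + 1) / 2) (fun i => (h1 i).1) (fun i => (h1 i).2)
  have h3 : L (fun i => (((y i / ρ + 1) / 2 : ℝ) : ℂ)) = rc y := by
    funext i
    show (ρ : ℂ) * (2 * (((y i / ρ + 1) / 2 : ℝ) : ℂ) - 1) = ((y i : ℝ) : ℂ)
    have h4 : (ρ : ℂ) ≠ 0 := by exact_mod_cast hρ0.ne'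
    push_cast
    field_simp
    ring
  have h4 : eval (rc y) (aeval θ P) = eval (fun i => (((y i / ρ + 1) / 2 : ℝ) : ℂ)) P := by
    rw [eval_aeval']
    congr 2
    funext i
    show eval (rc y) (MvPolynomial.C ((2 * ρ : ℂ)⁻¹) * X i + MvPolynomial.C (2⁻¹)) = _
    rw [map_add, map_mul, eval_C, eval_C, eval_X]
    show (2 * (ρ : ℂ))⁻¹ * ((y i : ℝ) : ℂ) + 2⁻¹ = _
    have h5 : (ρ : ℂ) ≠ 0 := by exact_mod_cast hρ0.ne'
    push_cast
    field_simp
  rw [eval_rep, h4, ← Complex.sub_re]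
  refine (Complex.abs_re_le_norm _).trans ?_
  rw [h3] at h2
  refine h2.trans ?_
  have h5 : S⁻¹ = 4 * ρ / R := by
    rw [hS, inv_div]
  rw [h5]
  have h6 : 0 ≤ (4 * ρ / R) ^ (K + 1) := by positivity
  refine mul_le_mul_of_nonneg_right (mul_le_mul_of_nonneg_right (by linarith) hM) h6

/-! ### polynomials are Lipschitz -/

lemma abs_prod_sub {ι : Type} (s : Finset ι) (e : ι → ℕ) (u v : ι → ℝ) {V ε : ℝ} (hV : 1 ≤ V) (hε : 0 ≤ ε)
    (hu : ∀ i, |u i| ≤ V) (hv : ∀ i, |v i| ≤ V) (h : ∀ i, |u i - v i| ≤ ε) :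
    |∏ i ∈ s, u i ^ e i - ∏ i ∈ s, v i ^ e i| ≤ ((∑ i ∈ s, e i : ℕ) : ℝ) * V ^ (∑ i ∈ s, e i) * ε := by
  classical
  have hpow : ∀ (w : ι → ℝ), (∀ i, |w i| ≤ V) → ∀ t : Finset ι, |∏ i ∈ t, w i ^ e i| ≤ V ^ (∑ i ∈ t, e i) := by
    intro w hw t
    rw [Finset.abs_prod, ← Finset.prod_pow_eq_pow_sum]
    refine Finset.prod_le_prod (fun _ _ => abs_nonneg _) fun i _ => ?_
    rw [abs_pow]
    exact pow_le_pow_left₀ (abs_nonneg _) (hw i) _
  induction s using Finset.induction_on with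
  | empty => simp
  | insert i s hi ih =>
    rw [Finset.prod_insert hi, Finset.prod_insert hi, Finset.sum_insert hi]
    have h1 : u i ^ e i * ∏ j ∈ s, u j ^ e j - v i ^ e i * ∏ j ∈ s, v j ^ e j =
        (u i ^ e i - v i ^ e i) * ∏ j ∈ s, u j ^ e j + v i ^ e i * (∏ j ∈ s, u j ^ e j - ∏ j ∈ s, v j ^ e j) := by ring
    rw [h1]
    refine (abs_add_le _ _).trans ?_
    rw [abs_mul, abs_mul]
    have h2 : |u i ^ e i - v i ^ e i| ≤ e i * V ^ e i * ε := by
      refine (abs_pow_sub_pow_le _ _ _).trans ?_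
      have h3 : max |u i| |v i| ^ (e i - 1) ≤ V ^ e i :=
        (pow_le_pow_left₀ (le_max_of_le_left (abs_nonneg _)) (max_le (hu i) (hv i)) _).trans
          (pow_le_pow_right₀ hV (Nat.sub_le _ _))
      calc |u i - v i| * e i * max |u i| |v i| ^ (e i - 1) ≤ ε * e i * V ^ e i :=
            mul_le_mul (mul_le_mul_of_nonneg_right (h i) (Nat.cast_nonneg _)) h3
              (pow_nonneg (le_max_of_le_left (abs_nonneg _)) _) (by positivity)
        _ = _ := by ring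
    have h4 : |v i ^ e i| ≤ V ^ e i := by
      rw [abs_pow]
      exact pow_le_pow_left₀ (abs_nonneg _) (hv i) _
    have h5 := hpow u hu s
    calc |u i ^ e i - v i ^ e i| * |∏ j ∈ s, u j ^ e j| + |v i ^ e i| * |∏ j ∈ s, u j ^ e j - ∏ j ∈ s, v j ^ e j|
        ≤ (e i * V ^ e i * ε) * V ^ (∑ j ∈ s, e j) + V ^ e i * (((∑ j ∈ s, e j : ℕ) : ℝ) * V ^ (∑ j ∈ s, e j) * ε) :=
          add_le_add (mul_le_mul h2 h5 (abs_nonneg _) (by positivity)) (mul_le_mul h4 ih (abs_nonneg _) (by positivity))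
      _ = _ := by
          rw [pow_add]
          push_cast
          ring

/-- LIPSCHITZ bound for a polynomial with bounded coefficients -/
theorem eval_lip {D : ℕ} (f : MvPolynomial (Fin m) ℝ) (hf : f.totalDegree ≤ D) {H₂ : ℝ} (h2 : ∀ a, |f.coeff a| ≤ H₂)
    {V ε : ℝ} (hV : 1 ≤ V) (hε : 0 ≤ ε) (u v : Fin m → ℝ) (hu : ∀ i, |u i| ≤ V) (hv : ∀ i, |v i| ≤ V)
    (h : ∀ i, |u i - v i| ≤ ε) :
    |eval u f - eval v f| ≤ Fintype.card (Mon m D) * D * H₂ * V ^ D * ε := by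
  obtain ⟨c, hc⟩ := exists_pol (D := D) f hf
  have hH : 0 ≤ H₂ := (abs_nonneg _).trans (h2 0)
  rw [hc, eval_pol, eval_pol]
  unfold dotProduct
  rw [← Finset.sum_sub_distrib]
  refine (Finset.abs_sum_le_sum_abs _ _).trans ?_
  have h3 : ∀ a ∈ (Finset.univ : Finset (Mon m D)), |c a * vv u a - c a * vv v a| ≤ D * H₂ * V ^ D * ε := by
    intro a _
    rw [← mul_sub, abs_mul, vv_apply, vv_apply]
    have h4 : |c a| ≤ H₂ := by
      have := h2 a.ex
      rwa [hc, coeff_pol] at this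
    have h5 := abs_prod_sub Finset.univ (fun i => (a.1 i : ℕ)) u v hV hε hu hv h
    have h6 : ∑ i, (a.1 i : ℕ) ≤ D := a.2
    have h7 : ((∑ i, (a.1 i : ℕ) : ℕ) : ℝ) * V ^ (∑ i, (a.1 i : ℕ)) * ε ≤ D * V ^ D * ε := by
      refine mul_le_mul_of_nonneg_right (mul_le_mul (by exact_mod_cast h6) (pow_le_pow_right₀ hV h6) (by positivity)
        (Nat.cast_nonneg _)) hε
    calc |c a| * _ ≤ H₂ * (D * V ^ D * ε) := mul_le_mul h4 (h5.trans h7) (abs_nonneg _) hH
      _ = _ := by ring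
  refine (Finset.sum_le_card_nsmul _ _ _ h3).trans (le_of_eq ?_)
  rw [nsmul_eq_mul, Finset.card_univ]
  ring

end Pool.Agent.Helper54.SLC
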