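import Pool.Agent.Helper48.NS.Dgrid

/-! SLICE, piece 1: REMEZ INEQUALITY for polynomials in several variables which are bounded on a subset of the unit cube of
positive measure. -/

set_option autoImplicit false

namespace Pool.Agent.Helper54.SLC

open MeasureTheory Set Pool.Agent.Helper48.NS Pool.Agent.Helper3.LF

/-- separated points in a set of positive measure -/
lemma exists_sepm (D : ℕ) {A : Set ℝ} {θ : ℝ} (hθ : 0 < θ) (hv : ENNReal.ofReal θ ≤ volume A) :
    ∃ τ : ℕ → ℝ, (∀ i ≤ D, τ i ∈ A) ∧ ∀ i ≤ D, ∀ j ≤ D, i ≠ j → θ / (4 * (D + 1)) ≤ |τ i - τ j| := by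
  obtain ⟨g, hg⟩ : ∃ g : ℝ, g = θ / (4 * (D + 1)) := ⟨_, rfl⟩
  have hg0 : 0 < g := by rw [hg]; positivity
  rw [← hg]
  have key : ∀ k : ℕ, k ≤ D + 1 → ∃ τ : ℕ → ℝ, (∀ i < k, τ i ∈ A) ∧ ∀ i < k, ∀ j < k, i ≠ j → g ≤ |τ i - τ j| := by
    intro k
    induction k with
    | zero => exact fun _ => ⟨fun _ => 0, fun i hi => absurd hi (Nat.not_lt_zero _), fun i hi => absurd hi (Nat.not_lt_zero _)⟩
    | succ k ih =>
      intro hk
      obtain ⟨τ, h1, h2⟩ := ih (by omega)
      have h3 : ∃ x ∈ A, x ∉ ⋃ i ∈ Finset.range k, Icc (τ i - g) (τ i + g) := by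
        by_contra hcon
        push Not at hcon
        have h4 : volume A ≤ volume (⋃ i ∈ Finset.range k, Icc (τ i - g) (τ i + g)) := measure_mono hcon
        have h5 : volume (⋃ i ∈ Finset.range k, Icc (τ i - g) (τ i + g)) ≤ ENNReal.ofReal (k * (2 * g)) := by
          refine (measure_biUnion_finset_le _ _).trans ?_
          have h6 : ∀ i ∈ Finset.range k, volume (Icc (τ i - g) (τ i + g)) ≤ ENNReal.ofReal (2 * g) := by
            intro i _
            rw [Real.volume_Icc]
            apply ENNReal.ofReal_le_ofReal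
            linarith
          refine (Finset.sum_le_card_nsmul _ _ _ h6).trans (le_of_eq ?_)
          rw [Finset.card_range, nsmul_eq_mul, ENNReal.ofReal_mul (Nat.cast_nonneg _), ENNReal.ofReal_natCast]
        have h7 := (hv.trans h4).trans h5
        rw [ENNReal.ofReal_le_ofReal_iff (by positivity)] at h7
        have h8 : (k : ℝ) ≤ D := by exact_mod_cast (by omega : k ≤ D)
        have h9 : θ = g * (4 * (D + 1)) := by rw [hg]; field_simp
        nlinarith
      obtain ⟨x, hx, hx'⟩ := h3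
      have h4 : ∀ i < k, g ≤ |x - τ i| := by
        intro i hi
        by_contra hcon
        push Not at hcon
        apply hx'
        rw [mem_iUnion₂]
        refine ⟨i, Finset.mem_range.mpr hi, ?_⟩
        rw [abs_lt] at hcon
        constructor <;> linarith [hcon.1, hcon.2]
      refine ⟨Function.update τ k x, ?_, ?_⟩
      · intro i hi
        by_cases hik : i = k
        · subst hik
          rw [Function.update_self]
          exact hx
        · rw [Function.update_of_ne hik]
          exact h1 i (by omega)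
      · intro i hi j hj hij
        by_cases hik : i = k
        · subst hik
          rw [Function.update_self, Function.update_of_ne (Ne.symm hij)]
          exact h4 j (by omega)
        · rw [Function.update_of_ne hik]
          by_cases hjk : j = k
          · subst hjk
            rw [Function.update_self, abs_sub_comm]
            exact h4 i (by omega)
          · rw [Function.update_of_ne hjk]
            exact h2 i (by omega) j (by omega) hij
  obtain ⟨τ, h1, h2⟩ := key (D + 1) le_rfl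
  exact ⟨τ, fun i hi => h1 i (by omega), fun i hi j hj hij => h2 i (by omega) j (by omega) hij⟩

/-- REMEZ in one variable -/
lemma rem1 (D : ℕ) (f : Polynomial ℝ) (hf : f.natDegree ≤ D) {A : Set ℝ} (hA : A ⊆ Icc 0 1) {θ : ℝ} (hθ : 0 < θ)
    (hv : ENNReal.ofReal θ ≤ volume A) {H ρ : ℝ} (hρ : 1 ≤ ρ) (hH : ∀ t ∈ A, |f.eval t| ≤ H) (s : ℝ) (hs : |s| ≤ ρ) :
    |f.eval s| ≤ (D + 1) * (8 * (D + 1)) ^ D * (ρ / θ) ^ D * H := by
  obtain ⟨τ, h1, h2⟩ := exists_sepm D hθ hv
  have h3 := lag_bound D f hf τ (θ / (4 * (D + 1))) (2 * ρ) H s (by positivity) h2 (by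
    intro i hi
    have h4 := hA (h1 i hi)
    rw [abs_le] at hs ⊢
    constructor <;> linarith [h4.1, h4.2, hs.1, hs.2]) (fun i hi => hH _ (h1 i hi))
  refine h3.trans (le_of_eq ?_)
  have e1 : 2 * ρ / (θ / (4 * ((D : ℝ) + 1))) = 8 * (D + 1) * (ρ / θ) := by
    field_simp
    ring
  rw [e1, mul_pow]
  ring

/-- the constants -/
noncomputable def cRm (K : ℕ) : ℕ → ℝ
  | 0 => 1
  | m + 1 => (K + 1) * (8 * (K + 1)) ^ K * 2 ^ K * (2 ^ (m * K) * cRm K m)

lemma cRm_one (K m : ℕ) : 1 ≤ cRm K m := by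
  induction m with
  | zero => exact le_rfl
  | succ m ih =>
    unfold cRm
    have h0 : (0 : ℝ) ≤ K := Nat.cast_nonneg K
    have h1 : (1 : ℝ) ≤ K + 1 := by linarith
    have h3 : (1 : ℝ) ≤ (8 * ((K : ℝ) + 1)) ^ K := one_le_pow₀ (by linarith)
    have h4 : (1 : ℝ) ≤ 2 ^ K := one_le_pow₀ (by norm_num)
    have h5 : (1 : ℝ) ≤ 2 ^ (m * K) := one_le_pow₀ (by norm_num)
    exact one_le_mul_of_one_le_of_one_le (one_le_mul_of_one_le_of_one_le (one_le_mul_of_one_le_of_one_le h1 h3) h4)
      (one_le_mul_of_one_le_of_one_le h5 ih)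

/-- the slices of large measure -/
lemma slice_meas {m : ℕ} {S : Set (Fin (m + 1) → ℝ)} (hS : MeasurableSet S) (hS1 : S ⊆ Icc 0 1) {θ : ℝ} (hθ : 0 < θ)
    (hv : ENNReal.ofReal θ ≤ volume S) :
    ENNReal.ofReal (θ / 2) ≤ volume {t : ℝ | ENNReal.ofReal (θ / 2) ≤ volume {y : Fin m → ℝ | (Fin.cons t y : Fin (m + 1) → ℝ) ∈ S}} := by
  set e := MeasurableEquiv.piFinSuccAbove (fun _ : Fin (m + 1) => ℝ) 0 with he
  have hp : MeasurePreserving e volume volume := volume_preserving_piFinSuccAbove (fun _ : Fin (m + 1) => ℝ) 0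
  have hsl : ∀ t : ℝ, Prod.mk t ⁻¹' (e.symm ⁻¹' S) = {y : Fin m → ℝ | (Fin.cons t y : Fin (m + 1) → ℝ) ∈ S} := by
    intro t
    ext y
    show e.symm (t, y) ∈ S ↔ _
    have h1 : e.symm (t, y) = (Fin.cons t y : Fin (m + 1) → ℝ) := by
      have h2 : e (Fin.cons t y) = (t, y) := by
        refine Prod.ext ?_ ?_
        · rfl
        · funext j
          rfl
      rw [← h2, MeasurableEquiv.symm_apply_apply]
    rw [h1]
    rfl
  have hms : MeasurableSet (e.symm ⁻¹' S) := e.symm.measurable hS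
  have hvol : volume S = ∫⁻ t : ℝ, volume {y : Fin m → ℝ | (Fin.cons t y : Fin (m + 1) → ℝ) ∈ S} := by
    have h1 : volume S = volume (e.symm ⁻¹' S) := ((hp.symm e).measure_preimage hS.nullMeasurableSet).symm
    rw [h1, Measure.volume_eq_prod, Measure.prod_apply hms]
    exact lintegral_congr fun t => by rw [hsl]
  set φ : ℝ → ENNReal := fun t => volume {y : Fin m → ℝ | (Fin.cons t y : Fin (m + 1) → ℝ) ∈ S} with hφ
  have hφm : Measurable φ := by
    have h1 := measurable_measure_prodMk_left (ν := (volume : Measure (Fin m → ℝ))) hms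
    have h2 : φ = fun t => volume (Prod.mk t ⁻¹' (e.symm ⁻¹' S)) := by
      funext t
      rw [hsl]
    rw [h2]
    exact h1
  have hφ1 : ∀ t, φ t ≤ 1 := by
    intro t
    have h1 : volume (Icc (0 : Fin m → ℝ) 1) = 1 := by
      rw [Real.volume_Icc_pi]
      simp
    rw [← h1]
    apply measure_mono
    intro y hy
    have h2 := hS1 hy
    constructor
    · intro i
      have := h2.1 i.succ
      rwa [Fin.cons_succ] at this
    · intro i
      have := h2.2 i.succ
      rwa [Fin.cons_succ] at this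
  have hφ0 : ∀ t, t ∉ Icc (0 : ℝ) 1 → φ t = 0 := by
    intro t ht
    have h1 : {y : Fin m → ℝ | (Fin.cons t y : Fin (m + 1) → ℝ) ∈ S} = ∅ := by
      rw [Set.eq_empty_iff_forall_notMem]
      intro y hy
      apply ht
      have h2 := hS1 hy
      constructor
      · have := h2.1 0
        rwa [Fin.cons_zero] at this
      · have := h2.2 0
        rwa [Fin.cons_zero] at this
    rw [hφ]
    simp only [h1, measure_empty]
  set A : Set ℝ := {t | ENNReal.ofReal (θ / 2) ≤ φ t} with hA
  have hAm : MeasurableSet A := measurableSet_le measurable_const hφm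
  have h3 : ∫⁻ t, φ t ≤ volume A + ENNReal.ofReal (θ / 2) := by
    have h4 : ∀ t, φ t ≤ A.indicator (fun _ => 1) t + (Icc (0 : ℝ) 1).indicator (fun _ => ENNReal.ofReal (θ / 2)) t := by
      intro t
      by_cases hta : t ∈ A
      · rw [indicator_of_mem hta]
        exact (hφ1 t).trans le_self_add
      · by_cases hti : t ∈ Icc (0 : ℝ) 1
        · rw [indicator_of_mem hti]
          exact (not_le.mp hta).le.trans le_add_self
        · rw [hφ0 t hti]
          exact bot_le
    refine (lintegral_mono h4).trans ?_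
    rw [lintegral_add_left (measurable_const.indicator hAm), lintegral_indicator hAm, lintegral_indicator measurableSet_Icc,
      setLIntegral_const, setLIntegral_const, one_mul, Real.volume_Icc, sub_zero, ENNReal.ofReal_one, mul_one]
  rw [← hvol] at h3
  have h5 := hv.trans h3
  have h6 : ENNReal.ofReal θ = ENNReal.ofReal (θ / 2) + ENNReal.ofReal (θ / 2) := by
    rw [← ENNReal.ofReal_add (by positivity) (by positivity)]
    congr 1
    ring
  rw [h6] at h5
  exact (ENNReal.add_le_add_iff_right ENNReal.ofReal_ne_top).mp h5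

/-- REMEZ in several variables -/
theorem remm (K m : ℕ) : ∀ f : (Fin m → ℝ) → ℝ, SPf K f → ∀ S : Set (Fin m → ℝ), MeasurableSet S →
    S ⊆ Icc 0 1 → ∀ θ : ℝ, 0 < θ → ENNReal.ofReal θ ≤ volume S → ∀ H ρ : ℝ, 1 ≤ ρ → (∀ y ∈ S, |f y| ≤ H) →
    ∀ y : Fin m → ℝ, (∀ i, |y i| ≤ ρ) → |f y| ≤ cRm K m * (ρ / θ) ^ (m * K) * H := by
  induction m with
  | zero =>
    intro f _ S _ _ θ hθ hv H ρ _ hH y _
    have h1 : S.Nonempty := by
      rw [Set.nonempty_iff_ne_empty]
      intro h0
      rw [h0, measure_empty] at hv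
      have := ENNReal.ofReal_pos.mpr hθ
      exact absurd (lt_of_lt_of_le this hv) (lt_irrefl _)
    obtain ⟨u, hu⟩ := h1
    have h2 : u = y := by
      funext i
      exact Fin.elim0 i
    have h3 := hH u hu
    rw [h2] at h3
    unfold cRm
    rw [zero_mul, pow_zero, mul_one, one_mul]
    exact h3
  | succ m ih =>
    intro f hf S hS hS1 θ hθ hv H ρ hρ hH y hy
    have h1 := slice_meas hS hS1 hθ hv
    set A : Set ℝ := {t : ℝ | ENNReal.ofReal (θ / 2) ≤ volume {y : Fin m → ℝ | (Fin.cons t y : Fin (m + 1) → ℝ) ∈ S}}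
      with hA
    have hA1 : A ⊆ Icc 0 1 := by
      intro t ht
      have h2 : {y : Fin m → ℝ | (Fin.cons t y : Fin (m + 1) → ℝ) ∈ S}.Nonempty := by
        rw [Set.nonempty_iff_ne_empty]
        intro h0
        have h3 : ENNReal.ofReal (θ / 2) ≤ volume {y : Fin m → ℝ | (Fin.cons t y : Fin (m + 1) → ℝ) ∈ S} := ht
        rw [h0, measure_empty] at h3
        have := ENNReal.ofReal_pos.mpr (by positivity : 0 < θ / 2)
        exact absurd (lt_of_lt_of_le this h3) (lt_irrefl _)
      obtain ⟨y', hy'⟩ := h2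
      have h4 := hS1 hy'
      constructor
      · have := h4.1 0
        rwa [Fin.cons_zero] at this
      · have := h4.2 0
        rwa [Fin.cons_zero] at this
    have hcm : Measurable fun p : ℝ × (Fin m → ℝ) => (Fin.cons p.1 p.2 : Fin (m + 1) → ℝ) := by
      rw [measurable_pi_iff]
      intro i
      refine Fin.cases ?_ (fun j => ?_) i
      · simpa using measurable_fst
      · simp only [Fin.cons_succ]
        exact (measurable_pi_apply j).comp measurable_snd
    have hsl : ∀ t ∈ A, |f (Fin.cons t (Fin.tail y))| ≤ cRm K m * (ρ / (θ / 2)) ^ (m * K) * H := by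
      intro t ht
      refine ih (fun y' => f (Fin.cons t y')) ?_ {y' | (Fin.cons t y' : Fin (m + 1) → ℝ) ∈ S} ?_ ?_ (θ / 2)
        (by positivity) ht H ρ hρ (fun y' hy' => hH _ hy') (Fin.tail y) (fun i => hy i.succ)
      · intro i z
        obtain ⟨g, hg1, hg2⟩ := hf i.succ (Fin.cons t z)
        refine ⟨g, hg1, fun s => ?_⟩
        show f (Fin.cons t (Function.update z i s)) = _
        rw [← hg2, Fin.cons_update]
      · exact (hcm.comp (measurable_const.prodMk measurable_id)) hS
      · intro y' hy'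
        have h4 := hS1 hy'
        constructor
        · intro i
          have := h4.1 i.succ
          rwa [Fin.cons_succ] at this
        · intro i
          have := h4.2 i.succ
          rwa [Fin.cons_succ] at this
    obtain ⟨g, hg1, hg2⟩ := hf 0 (Fin.cons 0 (Fin.tail y))
    have hg3 : ∀ t, f (Fin.cons t (Fin.tail y)) = g.eval t := by
      intro t
      rw [← hg2 t, Fin.update_cons_zero]
    have hy2 : f y = g.eval (y 0) := by
      rw [← hg3 (y 0), Fin.cons_self_tail]
    have h5 := rem1 K g hg1 hA1 (by positivity : 0 < θ / 2) h1 hρ (fun t ht => by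
      rw [← hg3]
      exact hsl t ht) (y 0) (hy 0)
    rw [hy2]
    refine h5.trans (le_of_eq ?_)
    have e1 : ρ / (θ / 2) = 2 * (ρ / θ) := by field_simp
    have e2 : (m + 1) * K = m * K + K := by ring
    have e3 : cRm K (m + 1) = (K + 1) * (8 * (K + 1)) ^ K * 2 ^ K * (2 ^ (m * K) * cRm K m) := rfl
    rw [e1, e2, e3, pow_add, mul_pow, mul_pow]
    ring

/-- REMEZ INEQUALITY for polynomials in several variables -/
theorem remez {m K : ℕ} (q : MvPolynomial (Fin m) ℝ) (hq : q.totalDegree ≤ K) {S : Set (Fin m → ℝ)}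
    (hS1 : S ⊆ Icc 0 1) {θ : ℝ} (hθ : 0 < θ) (hv : ENNReal.ofReal θ ≤ volume S) {H ρ : ℝ} (hρ : 1 ≤ ρ)
    (hH : ∀ y ∈ S, |MvPolynomial.eval y q| ≤ H) (y : Fin m → ℝ) (hy : ∀ i, |y i| ≤ ρ) :
    |MvPolynomial.eval y q| ≤ cRm K m * (ρ / θ) ^ (m * K) * H := by
  have h1 : IsClosed (Icc (0 : Fin m → ℝ) 1 ∩ {y | |MvPolynomial.eval y q| ≤ H}) :=
    isClosed_Icc.inter (isClosed_le (MvPolynomial.continuous_eval q).abs continuous_const)
  exact remm K m (fun y => MvPolynomial.eval y q) (SPf_eval q hq) _ h1.measurableSet inter_subset_left θ hθ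
    (hv.trans (measure_mono fun y hy => ⟨hS1 hy, hH y hy⟩)) H ρ hρ (fun y hy => hy.2) y hy

end Pool.Agent.Helper54.SLC
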