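import Pool.Agent.Helper54.SLC.Row
import Pool.Agent.Helper54.SLC.Rem
import Pool.Agent.Helper48.DGR.St

/-! SLICE, piece 4: assembly. -/

set_option autoImplicit false

namespace Pool.Agent.Helper54.SLC

open MvPolynomial MeasureTheory Set Metric
open Pool.Agent.Helper95.LF (PdM exists_factor PdM.nonneg)
open Pool.Agent.Helper3.LF (Mon phi nn nn_one)
open Pool.Agent.Helper84.MT (Jq GQ)
open Pool.Agent.Helper76.RL (rc cht Cod Tc Td Reg gd mi fam fam_deg gd_fam cP cP_one mem_Reg nR Rw Tc_hasFDerivAt reg_meas)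
open Pool.Agent.Helper48.DGR (SliceP)
open Pool.Agent.Helper89.LX (qf)

/-- THE POINT ON THE SLICE (91's `slice_pt`) -/
def PtP (m D : ℕ) : Prop := ∃ C : ℝ, 1 ≤ C ∧ ∀ T : Fin m → MvPolynomial (Fin m) ℝ, (∀ b, (T b).totalDegree ≤ D) →
  ∀ R : ℝ, 1 < R → ∀ G : Fin m → (Fin m → ℂ) → ℂ, (∀ j, DifferentiableOn ℂ (G j) (ball 0 R)) →
  ∀ E : Set (Fin m → ℝ), volume ((fun x b => eval x (T b)) '' E) ≠ 0 →
  (∀ x ∈ E, (∀ b, 0 ≤ eval x (T b) ∧ eval x (T b) ≤ 1) ∧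
    (Matrix.of fun b i => eval x (pderiv i (T b))).det ≠ 0 ∧
    ∀ j, G j (rc fun b => eval x (T b)) = ((x j : ℝ) : ℂ)) →
  ∀ x ∈ E, ∀ (w : Fin m → ℝ) (Λ l : ℝ), 0 < l →
  (∀ s : ℝ, |s| ≤ 1 → ∀ b, |eval (fun i => x i + s * w i) (T b)| ≤ Λ) →
  ∀ a, l ≤ |∑ i, w i * eval x (pderiv i (T a))| → C * Λ ≤ l ^ 2 → C * Λ / l < R →
  ∃ t : ℝ, |t| ≤ 1 ∧ eval (fun i => x i + t * w i) (T a) = 0 ∧
    (∀ b, |eval (fun i => x i + t * w i) (T b)| ≤ C * Λ / l) ∧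
    ∀ j, G j (rc fun b => eval (fun i => x i + t * w i) (T b)) = ((x j + t * w j : ℝ) : ℂ)

variable {d : ℕ}

/-- the point of the slice with given parameters -/
noncomputable def slp (ρ : ℝ) (a : Fin (d + 1)) (Y : Fin d → ℝ) : Fin (d + 1) → ℝ :=
  Fin.insertNth (α := fun _ => ℝ) a 0 (fun b => ρ * (2 * Y b - 1))

/-- the polynomials of the parametrisation of the slice -/
noncomputable def slq (ρ : ℝ) (a : Fin (d + 1)) : Fin (d + 1) → MvPolynomial (Fin d) ℝ :=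
  Fin.insertNth (α := fun _ => MvPolynomial (Fin d) ℝ) a 0 (fun b => C (2 * ρ) * X b - C ρ)

lemma eval_slq (ρ : ℝ) (a : Fin (d + 1)) (Y : Fin d → ℝ) (b : Fin (d + 1)) : eval Y (slq ρ a b) = slp ρ a Y b := by
  unfold slq slp
  rcases Fin.eq_self_or_eq_succAbove a b with h | ⟨b', h⟩
  · rw [h, Fin.insertNth_apply_same, Fin.insertNth_apply_same, map_zero]
  · rw [h, Fin.insertNth_apply_succAbove, Fin.insertNth_apply_succAbove, map_sub, map_mul, eval_C, eval_C, eval_X]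
    ring

lemma slq_deg (ρ : ℝ) (a b : Fin (d + 1)) : (slq ρ a b).totalDegree ≤ 1 := by
  unfold slq
  rcases Fin.eq_self_or_eq_succAbove a b with h | ⟨b', h⟩
  · rw [h, Fin.insertNth_apply_same, totalDegree_zero]
    exact Nat.zero_le _
  · rw [h, Fin.insertNth_apply_succAbove]
    refine (totalDegree_sub_C_le _ _).trans ((totalDegree_mul _ _).trans ?_)
    rw [totalDegree_C, zero_add, totalDegree_X]

lemma slp_le {ρ : ℝ} (hρ : 0 ≤ ρ) (a : Fin (d + 1)) {Y : Fin d → ℝ} (hY : ∀ b, 0 ≤ Y b ∧ Y b ≤ 1) (b : Fin (d + 1)) :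
    |slp ρ a Y b| ≤ ρ := by
  unfold slp
  rcases Fin.eq_self_or_eq_succAbove a b with h | ⟨b', h⟩
  · rw [h, Fin.insertNth_apply_same, abs_zero]
    exact hρ
  · rw [h, Fin.insertNth_apply_succAbove, abs_mul, abs_of_nonneg hρ]
    have h1 : |2 * Y b' - 1| ≤ 1 := by
      rw [abs_le]
      constructor <;> linarith [(hY b').1, (hY b').2]
    calc ρ * |2 * Y b' - 1| ≤ ρ * 1 := mul_le_mul_of_nonneg_left h1 hρ
      _ = ρ := mul_one _

lemma exists_slp {ρ : ℝ} (hρ : 0 < ρ) (a : Fin (d + 1)) (y : Fin (d + 1) → ℝ) (h0 : y a = 0) (hy : ∀ b, |y b| ≤ ρ) :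
    ∃ Y : Fin d → ℝ, (∀ b, 0 ≤ Y b ∧ Y b ≤ 1) ∧ slp ρ a Y = y := by
  refine ⟨fun b => (y (a.succAbove b) / ρ + 1) / 2, fun b => ?_, ?_⟩
  · have h2 := abs_le.mp (hy (a.succAbove b))
    have h3 : -1 ≤ y (a.succAbove b) / ρ := by
      rw [le_div_iff₀ hρ]
      linarith [h2.1]
    have h4 : y (a.succAbove b) / ρ ≤ 1 := by
      rw [div_le_iff₀ hρ]
      linarith [h2.2]
    constructor <;> linarith
  · funext b
    unfold slp
    rcases Fin.eq_self_or_eq_succAbove a b with h | ⟨b', h⟩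
    · rw [h, Fin.insertNth_apply_same, h0]
    · rw [h, Fin.insertNth_apply_succAbove]
      field_simp
      ring

/-! ### the bound on a leaf -/

/-- THE BOUND: a polynomial which is bounded on a class of large measure is bounded on the cube -/
lemma leaf_bound {m D M : ℕ} (P : Fin m → MvPolynomial (Fin m) ℝ) (hP : ∀ j, (P j).totalDegree ≤ M)
    {S : Set (Fin m → ℝ)} (hS : S ⊆ Icc 0 1) {θ : ℝ} (hθ : 0 < θ) (hv : ENNReal.ofReal θ ≤ volume S) {V ε ρ : ℝ}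
    (hV : 1 ≤ V) (hε : 0 ≤ ε) (hρ : 1 ≤ ρ) (f : MvPolynomial (Fin m) ℝ) (hf : f.totalDegree ≤ D) {H H₂ : ℝ}
    (h2 : ∀ a, |f.coeff a| ≤ H₂)
    (hx : ∀ y ∈ S, ∃ x : Fin m → ℝ, |eval x f| ≤ H ∧ (∀ j, |x j| ≤ V) ∧ (∀ j, |eval y (P j)| ≤ V) ∧
      ∀ j, |x j - eval y (P j)| ≤ ε)
    (y : Fin m → ℝ) (hy : ∀ i, |y i| ≤ ρ) :
    |eval (fun j => eval y (P j)) f| ≤ cRm (D * M) m * (ρ / θ) ^ (m * (D * M)) *
      (H + Fintype.card (Mon m D) * D * H₂ * V ^ D * ε) := by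
  rw [← eval_aevalR]
  refine remez (aeval P f) ((totalDegree_aeval_le P hP f).trans (Nat.mul_le_mul_right _ hf)) hS hθ hv hρ ?_ y hy
  intro y hy
  obtain ⟨x, h3, h4, h5, h6⟩ := hx y hy
  rw [eval_aevalR]
  have h7 := eval_lip f hf h2 hV hε (fun j => eval y (P j)) x h5 h4 (fun j => by
    rw [abs_sub_comm]
    exact h6 j)
  have h8 : |eval (fun j => eval y (P j)) f| ≤ |eval (fun j => eval y (P j)) f - eval x f| + |eval x f| := by
    have := abs_add_le (eval (fun j => eval y (P j)) f - eval x f) (eval x f)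
    rwa [sub_add_cancel] at this
  linarith

/-! ### the constants -/

/-- one good class: everything about one code -/
structure GCod {R : Type} [Fintype R] (m N L : ℕ) (ψ : R → MvPolynomial (Fin m) ℝ) (K C₀ : ℝ) (c : Cod m R N L) (E : Set (Fin m → ℝ))
    (G : Fin m → (Fin m → ℂ) → ℂ) : Prop where
  reg : ∀ x ∈ E, x ∈ Reg ψ K
  uT : ∀ x ∈ E, ∀ a, 0 ≤ Tc ψ K c x a ∧ Tc ψ K c x a ≤ 1
  lT : ∀ x ∈ E, N ^ m * √(gd ψ x) ≤ C₀ * K ^ m * |(Td ψ K c x).det|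
  nz : ∀ x ∈ E, (Td ψ K c x).det ≠ 0
  hG : ∀ x ∈ E, ∀ j, G j (rc (Tc ψ K c x)) = ((x j / K : ℝ) : ℂ)
  dG : ∀ j, DifferentiableOn ℂ (G j) (ball 0 (√N / C₀))
  bG : ∀ j, ∀ y ∈ ball (0 : Fin m → ℂ) (√N / C₀), ‖G j y‖ ≤ 3

lemma ne1 {a b c : ℝ} (h : a ≤ b) (hb : 0 ≤ b) (hc : 1 ≤ c) : a ≤ c * b := by nlinarith

lemma ne2 {N g e n : ℝ} (hN : 0 ≤ N) (h1 : -(g / 2) ≤ e) (h2 : e ≤ g / 2) (h4 : n ≤ N) (h5 : 0 ≤ n) :
    |N * (1 / 2 + e) - n| ≤ (g + 2) * N := by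
  have h9 : N * (1 / 2 - g / 2) ≤ N * (1 / 2 + e) := mul_le_mul_of_nonneg_left (by linarith) hN
  have h10 : N * (1 / 2 + e) ≤ N * (1 / 2 + g / 2) := mul_le_mul_of_nonneg_left (by linarith) hN
  rw [abs_le]
  constructor
  · nlinarith
  · nlinarith

/-- THE COVER, one class -/
theorem cover_one {m D : ℕ} {C₀ C₁ : ℝ} (hC₀ : 1 ≤ C₀) (hC₁ : 1 ≤ C₁) (hm : 1 ≤ m)
    (hpt : ∀ T : Fin m → MvPolynomial (Fin m) ℝ, (∀ b, (T b).totalDegree ≤ D) →
      ∀ R : ℝ, 1 < R → ∀ G : Fin m → (Fin m → ℂ) → ℂ, (∀ j, DifferentiableOn ℂ (G j) (ball 0 R)) →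
      ∀ E : Set (Fin m → ℝ), volume ((fun x b => eval x (T b)) '' E) ≠ 0 →
      (∀ x ∈ E, (∀ b, 0 ≤ eval x (T b) ∧ eval x (T b) ≤ 1) ∧
        (Matrix.of fun b i => eval x (pderiv i (T b))).det ≠ 0 ∧
        ∀ j, G j (rc fun b => eval x (T b)) = ((x j : ℝ) : ℂ)) →
      ∀ x ∈ E, ∀ (w : Fin m → ℝ) (Λ l : ℝ), 0 < l →
      (∀ s : ℝ, |s| ≤ 1 → ∀ b, |eval (fun i => x i + s * w i) (T b)| ≤ Λ) →
      ∀ a, l ≤ |∑ i, w i * eval x (pderiv i (T a))| → C₁ * Λ ≤ l ^ 2 → C₁ * Λ / l < R →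
      ∃ t : ℝ, |t| ≤ 1 ∧ eval (fun i => x i + t * w i) (T a) = 0 ∧
        (∀ b, |eval (fun i => x i + t * w i) (T b)| ≤ C₁ * Λ / l) ∧
        ∀ j, G j (rc fun b => eval (fun i => x i + t * w i) (T b)) = ((x j + t * w j : ℝ) : ℂ))
    {N L : ℕ} (hN : 0 < N) (hD : 1 ≤ D) (B : Matrix (Mon m D) (Mon m D) ℝ) (hB : PdM (B.transpose * B)) {r κ τ : ℝ}
    (hr : 0 < r) (hr1 : r ≤ 1) (hκ : 1 ≤ κ) (hτ0 : 0 < τ) (hτ1 : τ ≤ 1) (c₂ : ℝ)
    (hc₂ : c₂ = 4 * C₁ * (cGr m D + 2) * C₀ * m * cP m D) (hNτ : 64 * C₀ ^ 2 * c₂ ^ 2 * κ ^ 2 ≤ N * τ)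
    (c : Cod m (Rw m D) N L) (E : Set (Fin m → ℝ)) (G : Fin m → (Fin m → ℂ) → ℂ)
    (h : GCod m N L (fam B r) (2 * cP m D * κ) C₀ c E G)
    (hE : volume (Tc (fam B r) (2 * cP m D * κ) c '' E) ≠ 0) (x : Fin m → ℝ) (hx : x ∈ E) (j : Fin m)
    (hj : τ ≤ r ^ 2 * Jq r (B.transpose * B) x j j) :
    ∃ (a : Fin m) (y z : Fin m → ℝ), y a = 0 ∧ (∀ b, |y b| ≤ c₂ * κ / √τ) ∧ (∀ i, |z i - x i| ≤ r) ∧
      ∀ i, G i (rc y) = ((z i / (2 * cP m D * κ) : ℝ) : ℂ) := by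
  have hcP := cP_one m D
  have hcg := cGr_two m D
  have hN' : (0 : ℝ) < N := by exact_mod_cast hN
  have hm' : (1 : ℝ) ≤ m := by exact_mod_cast hm
  set K₁ : ℝ := 2 * cP m D * κ with hK₁
  have hK1 : 1 ≤ K₁ := by
    have : 1 ≤ 2 * cP m D := by linarith
    exact one_le_mul_of_one_le_of_one_le this hκ
  have hK0 : 0 < K₁ := by linarith
  have hsτ : 0 < √τ := Real.sqrt_pos.mpr hτ0
  set ψ := fam B r with hψ
  have hgd0 : 0 ≤ gd ψ x := by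
    have h1 := Pool.Agent.Helper84.MT.one_le_GQ r hB.1 hB.nonneg x
    have h2 : gd ψ x = GQ r (B.transpose * B) x := gd_fam B r x
    linarith
  have hmi : mi ψ c.1 x ≠ 0 := by
    have h1 := h.nz x hx
    rw [Pool.Agent.Helper76.RL.Td_det] at h1
    exact right_ne_zero_of_mul (right_ne_zero_of_mul h1)
  have hgd : gd ψ x ≤ C₀ ^ 2 * mi ψ c.1 x ^ 2 := gd_le ψ hK0 hN c x hgd0 (by linarith) (h.lT x hx)
  obtain ⟨a, ha⟩ := exists_steep ψ c.1 x hmi hgd j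
  rw [jac_fam, Matrix.add_apply, Matrix.one_apply_eq] at ha
  set q : ℝ := eval x (pderiv j (ψ (c.1 a))) with hq
  -- the slope
  set l : ℝ := N * √τ / (2 * K₁ * C₀ * m) with hl
  have hl0 : 0 < l := by positivity
  have h1 : √τ ≤ C₀ * m * (r * |q|) := by
    rw [Real.sqrt_le_left (by positivity)]
    have h2 : τ ≤ r ^ 2 * (C₀ ^ 2 * (m * q ^ 2)) := by
      refine hj.trans (mul_le_mul_of_nonneg_left ?_ (by positivity))
      linarith
    have h3 : (C₀ * m * (r * |q|)) ^ 2 = m * (r ^ 2 * (C₀ ^ 2 * (m * q ^ 2))) := by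
      rw [mul_pow, mul_pow, mul_pow, sq_abs]
      ring
    rw [h3]
    exact ne1 h2 (by positivity) hm'
  have hdir : l ≤ |∑ i, (Pi.single j r : Fin m → ℝ) i * eval x (pderiv i (Tp ψ K₁ c a))| := by
    have h2 : ∑ i, (Pi.single j r : Fin m → ℝ) i * eval x (pderiv i (Tp ψ K₁ c a)) = r * (N / (2 * K₁) * q) := by
      rw [Finset.sum_eq_single j]
      · rw [Pi.single_eq_same, pderiv_Tp]
      · intro b _ hb
        rw [Pi.single_eq_of_ne hb, zero_mul]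
      · intro h0
        exact absurd (Finset.mem_univ _) h0
    rw [h2, abs_mul, abs_mul, abs_of_pos hr, abs_of_nonneg (by positivity : (0 : ℝ) ≤ N / (2 * K₁)), hl,
      div_le_iff₀ (by positivity)]
    calc N * √τ ≤ N * (C₀ * m * (r * |q|)) := mul_le_mul_of_nonneg_left h1 hN'.le
      _ = r * (N / (2 * K₁) * |q|) * (2 * K₁ * C₀ * m) := by field_simp
  -- the size
  set Λ : ℝ := (cGr m D + 2) * N with hΛ
  have hsize : ∀ s : ℝ, |s| ≤ 1 → ∀ b, |eval (fun i => x i + s * (Pi.single j r : Fin m → ℝ) i) (Tp ψ K₁ c b)| ≤ Λ := by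
    intro s hs b
    have h2 : ∀ i, |(x i + s * (Pi.single j r : Fin m → ℝ) i) - x i| ≤ r := by
      intro i
      rw [add_sub_cancel_left, abs_mul]
      have h3 : |(Pi.single j r : Fin m → ℝ) i| ≤ r := by
        by_cases hi : i = j
        · rw [hi, Pi.single_eq_same, abs_of_pos hr]
        · rw [Pi.single_eq_of_ne hi, abs_zero]
          exact hr.le
      calc |s| * |(Pi.single j r : Fin m → ℝ) i| ≤ 1 * r := mul_le_mul hs h3 (abs_nonneg _) zero_le_one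
        _ = r := one_mul _
    have h3 := fam_near B hr hr1 hK1 (h.reg x hx) h2 (c.1 b)
    rw [eval_Tp]
    unfold Tc Pool.Agent.Helper76.RL.Th
    have h4 : (((c.2.1 b : ℕ) : ℝ)) ≤ N := by exact_mod_cast (c.2.1 b).2.le
    have h5 : (0 : ℝ) ≤ ((c.2.1 b : ℕ) : ℝ) := Nat.cast_nonneg _
    have h6 := abs_le.mp h3
    set e : ℝ := eval (fun i => x i + s * (Pi.single j r : Fin m → ℝ) i) (fam B r (c.1 b)) with he
    have h7 : -(cGr m D / 2) ≤ e / (2 * K₁) := by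
      rw [le_div_iff₀ (by positivity)]
      linarith [h6.1]
    have h8 : e / (2 * K₁) ≤ cGr m D / 2 := by
      rw [div_le_iff₀ (by positivity)]
      linarith [h6.2]
    exact ne2 hN'.le h7 h8 h4 h5
  -- the numbers
  have hc₂0 : 1 ≤ c₂ := by
    rw [hc₂]
    have e1 : 1 ≤ 4 * C₁ := by linarith
    have e2 : 1 ≤ cGr m D + 2 := by linarith
    exact one_le_mul_of_one_le_of_one_le (one_le_mul_of_one_le_of_one_le (one_le_mul_of_one_le_of_one_le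
      (one_le_mul_of_one_le_of_one_le e1 e2) hC₀) hm') hcP
  have hρ : C₁ * Λ / l = c₂ * κ / √τ := by
    rw [hΛ, hl, hc₂, hK₁]
    field_simp
    ring
  have hsN : 0 < √(N : ℝ) := Real.sqrt_pos.mpr hN'
  have hbig : 8 * (c₂ * κ / √τ) ≤ √N / C₀ := by
    rw [mul_div_assoc', div_le_div_iff₀ hsτ (by linarith), ← Real.sqrt_mul hN'.le]
    apply Real.le_sqrt_of_sq_le
    calc (8 * (c₂ * κ) * C₀) ^ 2 = 64 * C₀ ^ 2 * c₂ ^ 2 * κ ^ 2 := by ring
      _ ≤ N * τ := hNτ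
  have hρ0 : 0 < c₂ * κ / √τ := by positivity
  have hlt : C₁ * Λ / l < √N / C₀ := by
    rw [hρ]
    linarith
  have hsq : C₁ * Λ ≤ l ^ 2 := by
    have h2 : C₁ * Λ = c₂ * κ / √τ * l := by
      rw [← hρ]
      field_simp
    rw [h2, pow_two]
    refine mul_le_mul_of_nonneg_right ?_ hl0.le
    rw [hl, div_le_div_iff₀ hsτ (by positivity)]
    have h3 : N * √τ * √τ = N * τ := by rw [mul_assoc, Real.mul_self_sqrt hτ0.le]
    rw [h3]
    have h4 : c₂ * κ * (2 * K₁ * C₀ * m) ≤ c₂ * κ * (c₂ * κ) := by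
      refine mul_le_mul_of_nonneg_left ?_ (by positivity)
      rw [hK₁, hc₂]
      have h5 : 2 * (2 * cP m D * κ) * C₀ * m = (4 * C₀ * m * cP m D) * κ := by ring
      have h6 : 4 * C₁ * (cGr m D + 2) * C₀ * m * cP m D = (4 * C₀ * m * cP m D) * (C₁ * (cGr m D + 2)) := by ring
      rw [h5, h6]
      refine mul_le_mul_of_nonneg_right ?_ (by linarith)
      have h7 : 0 ≤ 4 * C₀ * m * cP m D := by positivity
      have h8 : 1 ≤ C₁ * (cGr m D + 2) := one_le_mul_of_one_le_of_one_le hC₁ (by linarith)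
      rw [mul_comm (4 * C₀ * m * cP m D)]
      exact ne1 le_rfl h7 h8
    refine h4.trans (le_trans ?_ hNτ)
    have h5 : 1 ≤ 64 * C₀ ^ 2 := one_le_mul_of_one_le_of_one_le (by norm_num) (one_le_pow₀ hC₀)
    have h6 : 0 ≤ c₂ ^ 2 * κ ^ 2 := by positivity
    calc c₂ * κ * (c₂ * κ) ≤ 64 * C₀ ^ 2 * (c₂ ^ 2 * κ ^ 2) := ne1 (by ring_nf; exact le_rfl) h6 h5
      _ = _ := by ring
  have hR1 : 1 < √N / C₀ := by
    have h2 : 1 ≤ c₂ * κ := one_le_mul_of_one_le_of_one_le hc₂0 hκ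
    have h3 : √τ ≤ 1 := Real.sqrt_le_one.mpr hτ1
    have h4 : 1 ≤ c₂ * κ / √τ := by
      rw [le_div_iff₀ hsτ]
      linarith
    linarith
  have hTc : (fun (x : Fin m → ℝ) b => eval x (Tp ψ K₁ c b)) = Tc ψ K₁ c := by
    funext x b
    exact eval_Tp ψ K₁ c b x
  obtain ⟨t, ht, ht0, htb, htG⟩ := hpt (Tp ψ K₁ c) (Tp_deg ψ (fam_deg hD B r) K₁ c) (√N / C₀) hR1
    (fun j y => (K₁ : ℂ) * G j y) (fun j => (h.dG j).const_mul _) E (by rw [hTc]; exact hE) (by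
      intro x hx
      refine ⟨fun b => ?_, ?_, fun j => ?_⟩
      · rw [eval_Tp]
        exact h.uT x hx b
      · rw [det_Tp]
        exact h.nz x hx
      · have h2 : (fun b => eval x (Tp ψ K₁ c b)) = Tc ψ K₁ c x := congrFun hTc x
        rw [h2, h.hG x hx j]
        rw [← Complex.ofReal_mul, mul_div_cancel₀ _ hK0.ne']) x hx (Pi.single j r) Λ l hl0 hsize a hdir hsq hlt
  refine ⟨a, fun b => eval (fun i => x i + t * (Pi.single j r : Fin m → ℝ) i) (Tp ψ K₁ c b),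
    fun i => x i + t * (Pi.single j r : Fin m → ℝ) i, ht0, fun b => ?_, fun i => ?_, fun i => ?_⟩
  · rw [← hρ]
    exact htb b
  · rw [add_sub_cancel_left, abs_mul]
    have h3 : |(Pi.single j r : Fin m → ℝ) i| ≤ r := by
      by_cases hi : i = j
      · rw [hi, Pi.single_eq_same, abs_of_pos hr]
      · rw [Pi.single_eq_of_ne hi, abs_zero]
        exact hr.le
    calc |t| * |(Pi.single j r : Fin m → ℝ) i| ≤ 1 * r := mul_le_mul ht h3 (abs_nonneg _) zero_le_one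
      _ = r := one_mul _
  · have h2 := htG i
    have h3 : (K₁ : ℂ) ≠ 0 := by exact_mod_cast hK0.ne'
    rw [Complex.ofReal_div, ← h2, mul_comm, mul_div_assoc, div_self h3, mul_one]

end Pool.Agent.Helper54.SLC
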