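import Pool.Agent.Helper54.SLC.Fin

/-! SLICE, piece 5: the row. -/

set_option autoImplicit false

namespace Pool.Agent.Helper54.SLC

open MvPolynomial MeasureTheory Set Metric
open Pool.Agent.Helper95.LF (PdM exists_factor PdM.nonneg)
open Pool.Agent.Helper3.LF (Mon phi nn nn_one)
open Pool.Agent.Helper84.MT (Jq GQ)
open Pool.Agent.Helper76.RL (rc cht Cod Tc Td Reg gd mi fam fam_deg gd_fam cP cP_one mem_Reg nR Rw Tc_hasFDerivAt reg_meas)
open Pool.Agent.Helper48.DGR (SliceP)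
open Pool.Agent.Helper89.LX (qf)

lemma num_bound {κ τ θ c₂ c₄ cr a H H₂ X : ℝ} {k L D : ℕ} (hκ : 1 ≤ κ) (hτ0 : 0 < τ) (hτ1 : τ ≤ 1) (hθ0 : 0 < θ)
    (hθ1 : θ ≤ 1) (hc₂ : 1 ≤ c₂) (hc₄ : 0 ≤ c₄) (hcr : 0 ≤ cr) (hH : 0 ≤ H) (hH₂ : 0 ≤ H₂) (hX : 0 ≤ X) (hkL : k ≤ L)
    (hDL : D + 1 ≤ L) (ha : a ≤ c₄ * κ ^ (D + 1) * H₂ * X) :
    cr * (c₂ * κ / √τ / θ) ^ k * (H + a) ≤ cr * c₂ ^ k * (1 + c₄) * (κ / (τ * θ)) ^ L * (H + κ ^ L * H₂ * X) := by
  have hsτ : 0 < √τ := Real.sqrt_pos.mpr hτ0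
  have h1 : τ ≤ √τ := by
    apply Real.le_sqrt_of_sq_le
    nlinarith
  have h2 : c₂ * κ / √τ / θ ≤ c₂ * (κ / (τ * θ)) := by
    rw [div_div, mul_div_assoc]
    refine mul_le_mul_of_nonneg_left ?_ (by linarith)
    exact div_le_div_of_nonneg_left (by linarith) (by positivity) (mul_le_mul_of_nonneg_right h1 hθ0.le)
  have h3 : 1 ≤ κ / (τ * θ) := by
    rw [le_div_iff₀ (by positivity)]
    nlinarith
  have h4 : (c₂ * κ / √τ / θ) ^ k ≤ c₂ ^ k * (κ / (τ * θ)) ^ L := by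
    refine (pow_le_pow_left₀ (by positivity) h2 k).trans ?_
    rw [mul_pow]
    exact mul_le_mul_of_nonneg_left (pow_le_pow_right₀ h3 hkL) (by positivity)
  have h5 : H + a ≤ (1 + c₄) * (H + κ ^ L * H₂ * X) := by
    have h6 : κ ^ (D + 1) ≤ κ ^ L := pow_le_pow_right₀ hκ hDL
    have h7 : c₄ * κ ^ (D + 1) * H₂ * X ≤ c₄ * (κ ^ L * H₂ * X) := by
      calc c₄ * κ ^ (D + 1) * H₂ * X = c₄ * (κ ^ (D + 1) * (H₂ * X)) := by ring
        _ ≤ c₄ * (κ ^ L * (H₂ * X)) :=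
            mul_le_mul_of_nonneg_left (mul_le_mul_of_nonneg_right h6 (by positivity)) hc₄
        _ = _ := by ring
    have h8 : 0 ≤ κ ^ L * H₂ * X := by positivity
    have h9 : 0 ≤ c₄ * H := by positivity
    nlinarith
  have h10 : 0 ≤ (1 + c₄) * (H + κ ^ L * H₂ * X) := by positivity
  calc cr * (c₂ * κ / √τ / θ) ^ k * (H + a) ≤ cr * (c₂ * κ / √τ / θ) ^ k * ((1 + c₄) * (H + κ ^ L * H₂ * X)) :=
        mul_le_mul_of_nonneg_left h5 (by positivity)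
    _ ≤ cr * (c₂ ^ k * (κ / (τ * θ)) ^ L) * ((1 + c₄) * (H + κ ^ L * H₂ * X)) :=
        mul_le_mul_of_nonneg_right (mul_le_mul_of_nonneg_left h4 hcr) h10
    _ = _ := by ring

/-- degree of the constants is zero -/
lemma Jq_zero {m : ℕ} (A : Matrix (Mon m 0) (Mon m 0) ℝ) (r : ℝ) (x : Fin m → ℝ) (j : Fin m) : Jq r A x j j = 0 := by
  rw [Pool.Agent.Helper84.MT.Jq_apply]
  refine Finset.sum_eq_zero fun i _ => ?_
  have h1 : ∀ y : Fin m → ℝ, (Pool.Agent.Helper3.LF.dd j y : Mon m 0 → ℝ) = 0 := by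
    intro y
    funext a
    have h2 : a.ex = 0 := by
      ext i
      rw [Mon.ex_apply]
      have h3 : ((a.1 i : ℕ)) ≤ ∑ k, (a.1 k : ℕ) := Finset.single_le_sum (f := fun k => (a.1 k : ℕ))
        (fun _ _ => Nat.zero_le _) (Finset.mem_univ i)
      have h4 := a.2
      simp only [Finsupp.coe_zero, Pi.zero_apply]
      omega
    show eval y (pderiv j a.mon) = 0
    have h5 : a.mon = C 1 := by
      unfold Mon.mon
      rw [h2]
      rfl
    rw [h5, pderiv_C, map_zero]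
  rw [h1, zero_dotProduct]

theorem slice_zero (d D K : ℕ) : SliceP d 0 D K := by
  refine ⟨1, 0, le_rfl, ?_⟩
  intro A _ _ r hr _ κ hκ N θ τ hθ _ hτ _ _
  refine ⟨∅, 0, fun i => Fin.elim0 i, MeasurableSet.empty, ?_, fun i => Fin.elim0 i, ?_, ?_, fun i => Fin.elim0 i⟩
  · simp
  · simp
  · intro p x _ _ _ _ j hj
    rw [Jq_zero, mul_zero] at hj
    linarith

lemma nl_sq {x : ℝ} (h0 : 0 < x) (h1 : x ≤ 1) : x ^ 2 ≤ x := by nlinarith

lemma nl_mul1 {a b : ℝ} (ha : 0 ≤ a) (hb : 1 ≤ b) : a ≤ a * b := by nlinarith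

lemma nl_mul1' {a b : ℝ} (ha : 0 ≤ a) (hb : b ≤ 1) : a * b ≤ a := by nlinarith

lemma nl_mass {x n θ : ℝ} (hx : 0 ≤ x) (hn : 0 ≤ n) (hθ : 0 ≤ θ) : x + n * θ ≤ (1 + n) * (x + θ) := by nlinarith

theorem slice_pos {d D' : ℕ} (D K : ℕ) (hD' : 1 ≤ D') (hPt : PtP (d + 1) D') : SliceP d D' D K := by
  classical
  obtain ⟨L₀, C₀, hL₀, hC₀, hcht⟩ := cht (d + 1) D' (nR (d + 1) D') hD'
  obtain ⟨C₁, hC₁, hpt⟩ := hPt
  obtain ⟨C₂, hC₂, hap⟩ := approx_cube (d + 1) K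
  have hcP := cP_one (d + 1) D'
  have hcg := cGr_two (d + 1) D'
  have hdm : (1 : ℝ) ≤ ((d + 1 : ℕ) : ℝ) := by exact_mod_cast Nat.succ_le_succ (Nat.zero_le d)
  obtain ⟨c₂, hc₂⟩ : ∃ c₂ : ℝ, c₂ = 4 * C₁ * (cGr (d + 1) D' + 2) * C₀ * ((d + 1 : ℕ) : ℝ) * cP (d + 1) D' := ⟨_, rfl⟩
  have hc₂1 : 1 ≤ c₂ := by
    rw [hc₂]
    have e1 : 1 ≤ 4 * C₁ := by linarith
    have e2 : 1 ≤ cGr (d + 1) D' + 2 := by linarith
    exact one_le_mul_of_one_le_of_one_le (one_le_mul_of_one_le_of_one_le (one_le_mul_of_one_le_of_one_le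
      (one_le_mul_of_one_le_of_one_le e1 e2) hC₀) hdm) hcP
  obtain ⟨c₃, hc₃⟩ : ∃ c₃ : ℝ, c₃ = (1 + 3 * C₂) * (2 * cP (d + 1) D') := ⟨_, rfl⟩
  have hc₃1 : 1 ≤ c₃ := by
    rw [hc₃]
    exact one_le_mul_of_one_le_of_one_le (by linarith) (by linarith)
  obtain ⟨k, hk⟩ : ∃ k : ℕ, k = (d + 1) * (D * ((d + 1) * K)) := ⟨_, rfl⟩
  obtain ⟨c₄, hc₄⟩ : ∃ c₄ : ℝ, c₄ = Fintype.card (Mon (d + 1) D) * D * c₃ ^ D * (6 * C₂ * cP (d + 1) D') := ⟨_, rfl⟩
  have hc₄0 : 0 ≤ c₄ := by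
    rw [hc₄]
    have : 0 ≤ 6 * C₂ * cP (d + 1) D' := by positivity
    positivity
  obtain ⟨cr, hcr⟩ : ∃ cr : ℝ, cr = cRm (D * ((d + 1) * K)) (d + 1) := ⟨_, rfl⟩
  have hcr1 : 1 ≤ cr := by
    rw [hcr]
    exact cRm_one _ _
  obtain ⟨nc, hnc⟩ : ∃ nc : ℝ, nc = (nR (d + 1) D' : ℝ) ^ (d + 1) * ((L₀ : ℝ) * L₀) ^ (d + 1) := ⟨_, rfl⟩
  have hnc0 : 0 ≤ nc := by
    rw [hnc]
    positivity
  obtain ⟨cm, hcm⟩ : ∃ cm : ℝ, cm = C₀ * (2 * cP (d + 1) D') ^ (d + 1) * (1 + nc) := ⟨_, rfl⟩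
  have hcm0 : 0 ≤ cm := by
    rw [hcm]
    positivity
  have hcPh : 0 ≤ cPh (d + 1) D' := by
    unfold cPh
    have := nn_one (d + 1) D'
    positivity
  obtain ⟨C, hC⟩ : ∃ C : ℝ, C = 64 * C₀ ^ 2 * c₂ ^ 2 + 6 * C₂ * cP (d + 1) D' + 4 * C₀ * c₂ +
    cPh (d + 1) D' * (2 * cP (d + 1) D') ^ 2 + 2 * cP (d + 1) D' + cr * c₂ ^ k * (1 + c₄) + cm + nc * ((d + 1 : ℕ) : ℝ) :=
    ⟨_, rfl⟩
  have t1 : 0 ≤ 64 * C₀ ^ 2 * c₂ ^ 2 := by positivity
  have t2 : 0 ≤ 6 * C₂ * cP (d + 1) D' := by positivity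
  have t3 : 0 ≤ 4 * C₀ * c₂ := by positivity
  have t4 : 0 ≤ cPh (d + 1) D' * (2 * cP (d + 1) D') ^ 2 := by positivity
  have t5 : 0 ≤ cr * c₂ ^ k * (1 + c₄) := by positivity
  have t6 : 0 ≤ nc * ((d + 1 : ℕ) : ℝ) := by positivity
  have C1 : 64 * C₀ ^ 2 * c₂ ^ 2 ≤ C := by linarith
  have C2 : 6 * C₂ * cP (d + 1) D' ≤ C := by linarith
  have C3 : 4 * C₀ * c₂ ≤ C := by linarith
  have C4 : cPh (d + 1) D' * (2 * cP (d + 1) D') ^ 2 ≤ C := by linarith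
  have C5 : 2 * cP (d + 1) D' ≤ C := by linarith
  have C6 : cr * c₂ ^ k * (1 + c₄) ≤ C := by linarith
  have C7 : cm ≤ C := by linarith
  have C8 : nc * ((d + 1 : ℕ) : ℝ) ≤ C := by linarith
  have hC1 : 1 ≤ C := by linarith
  refine ⟨C, k + (D + 1), hC1, ?_⟩
  intro A hA _ r hr hr1 κ hκ N θ τ hθ0 hθ1 hτ0 hτ1 hN
  obtain ⟨B, hB, -⟩ := exists_factor A hA
  have hBp : PdM (B.transpose * B) := by rw [← hB]; exact hA
  -- the numbers
  obtain ⟨K₁, hK₁⟩ : ∃ K₁ : ℝ, K₁ = 2 * cP (d + 1) D' * κ := ⟨_, rfl⟩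
  have hK1 : 1 ≤ K₁ := by
    rw [hK₁]
    exact one_le_mul_of_one_le_of_one_le (by linarith) hκ
  have hK0 : 0 < K₁ := by linarith
  have hsτ : 0 < √τ := Real.sqrt_pos.mpr hτ0
  have hNτ : 64 * C₀ ^ 2 * c₂ ^ 2 * κ ^ 2 ≤ N * τ := by
    rw [div_le_iff₀ (by positivity)] at hN
    have h1 : C * κ ^ 4 ≤ N * τ := by
      refine hN.trans ?_
      have : (0 : ℝ) ≤ N := Nat.cast_nonneg N
      have h2 : τ ^ 2 ≤ τ := nl_sq hτ0 hτ1
      exact mul_le_mul_of_nonneg_left h2 this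
    have h3 : κ ^ 2 ≤ κ ^ 4 := pow_le_pow_right₀ hκ (by norm_num)
    calc 64 * C₀ ^ 2 * c₂ ^ 2 * κ ^ 2 ≤ C * κ ^ 4 := mul_le_mul C1 h3 (by positivity) (by linarith)
      _ ≤ N * τ := h1
  have hNpos : 0 < N := by
    rcases Nat.eq_zero_or_pos N with h | h
    · exfalso
      rw [h, Nat.cast_zero, zero_mul] at hNτ
      have : 0 < 64 * C₀ ^ 2 * c₂ ^ 2 * κ ^ 2 := by positivity
      linarith
    · exact h
  have hN' : (0 : ℝ) < N := by exact_mod_cast hNpos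
  have hNC : C₀ ^ 2 ≤ N := by
    have h1 : C₀ ^ 2 ≤ 64 * C₀ ^ 2 * c₂ ^ 2 * κ ^ 2 := by
      have e1 : 1 ≤ c₂ ^ 2 := one_le_pow₀ hc₂1
      have e2 : 1 ≤ κ ^ 2 := one_le_pow₀ hκ
      have e3 : 1 ≤ c₂ ^ 2 * κ ^ 2 := one_le_mul_of_one_le_of_one_le e1 e2
      have e4 : 1 ≤ 64 * (c₂ ^ 2 * κ ^ 2) := by linarith
      calc C₀ ^ 2 ≤ C₀ ^ 2 * (64 * (c₂ ^ 2 * κ ^ 2)) := nl_mul1 (sq_nonneg _) e4
        _ = _ := by ring
    exact (h1.trans hNτ).trans (nl_mul1' hN'.le hτ1)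
  have hsN : 0 < √(N : ℝ) := Real.sqrt_pos.mpr hN'
  obtain ⟨ρ, hρ⟩ : ∃ ρ : ℝ, ρ = c₂ * κ / √τ := ⟨_, rfl⟩
  have hρ1 : 1 ≤ ρ := by
    have h2 : 1 ≤ c₂ * κ := one_le_mul_of_one_le_of_one_le hc₂1 hκ
    have h3 : √τ ≤ 1 := Real.sqrt_le_one.mpr hτ1
    rw [hρ, le_div_iff₀ hsτ]
    linarith
  have hbig : 8 * ρ ≤ √N / C₀ := by
    rw [hρ, mul_div_assoc', div_le_div_iff₀ hsτ (by linarith), ← Real.sqrt_mul hN'.le]
    apply Real.le_sqrt_of_sq_le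
    calc (8 * (c₂ * κ) * C₀) ^ 2 = 64 * C₀ ^ 2 * c₂ ^ 2 * κ ^ 2 := by ring
      _ ≤ N * τ := hNτ
  obtain ⟨x₀, hx₀⟩ : ∃ x₀ : ℝ, x₀ = 4 * ρ / (√N / C₀) := ⟨_, rfl⟩
  have hx₀0 : 0 ≤ x₀ := by rw [hx₀]; positivity
  have hx₀1 : x₀ ≤ 1 := by
    rw [hx₀, div_le_one (by positivity)]
    linarith
  have hx₀e : x₀ = 4 * C₀ * c₂ * κ / √(N * τ) := by
    rw [hx₀, hρ, Real.sqrt_mul hN'.le]
    field_simp
  have hx₀C : x₀ ^ (K + 1) ≤ (C * κ / √(N * τ)) ^ (K + 1) := by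
    refine pow_le_pow_left₀ hx₀0 ?_ _
    rw [hx₀e]
    exact div_le_div_of_nonneg_right (mul_le_mul_of_nonneg_right C3 (by linarith)) (Real.sqrt_nonneg _)
  obtain ⟨ε, hε⟩ : ∃ ε : ℝ, ε = C₂ * (3 * K₁) * x₀ ^ (K + 1) := ⟨_, rfl⟩
  have hε0 : 0 ≤ ε := by rw [hε]; positivity
  have hεV : ε ≤ 3 * C₂ * K₁ := by
    rw [hε]
    have h1 : x₀ ^ (K + 1) ≤ 1 := pow_le_one₀ hx₀0 hx₀1
    have h2 : 0 ≤ C₂ * (3 * K₁) := by positivity
    calc C₂ * (3 * K₁) * x₀ ^ (K + 1) ≤ C₂ * (3 * K₁) := nl_mul1' h2 h1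
      _ = _ := by ring
  -- the charts
  obtain ⟨E, G, hE1, hE2, hE3, hG, -, hbad⟩ := hcht (R := Rw (d + 1) D') rfl (fam B r) (fam_deg hD' B r) Sum.inr
    (fun a => rfl) K₁ hK1 N hNC
  have hcod : ∀ c, GCod (d + 1) N L₀ (fam B r) K₁ C₀ c (E c) (G c) := fun c =>
    ⟨fun x hx => (hE3 c x hx).1, fun x hx => (hE3 c x hx).2.1, fun x hx => (hE3 c x hx).2.2.1,
      fun x hx => (hE3 c x hx).2.2.2.1, fun x hx => (hE3 c x hx).2.2.2.2, fun j => (hG c j).1, fun j => (hG c j).2.1⟩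
  have happ : ∀ (c : Cod (d + 1) (Rw (d + 1) D') N L₀) (j : Fin (d + 1)), ∃ P : MvPolynomial (Fin (d + 1)) ℝ,
      P.totalDegree ≤ (d + 1) * K ∧ ∀ y : Fin (d + 1) → ℝ, (∀ i, |y i| ≤ ρ) →
      |((K₁ : ℂ) * G c j (rc y)).re - eval y P| ≤ ε := by
    intro c j
    obtain ⟨P, hP1, hP2⟩ := hap (√N / C₀) ρ (3 * K₁) hρ1 hbig (by positivity) (fun y => (K₁ : ℂ) * G c j y)
      ((hG c j).1.const_mul _) (fun y hy => by
        rw [norm_mul, Complex.norm_real, Real.norm_eq_abs, abs_of_pos hK0, mul_comm]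
        exact mul_le_mul_of_nonneg_right ((hG c j).2.1 y hy) hK0.le)
    refine ⟨P, hP1, fun y hy => ?_⟩
    rw [hε, hx₀]
    exact hP2 y hy
  choose P hP1 hP2 using happ
  have hPz : ∀ (c : Cod (d + 1) (Rw (d + 1) D') N L₀) (y z : Fin (d + 1) → ℝ), (∀ i, |y i| ≤ ρ) →
      (∀ i, G c i (rc y) = ((z i / K₁ : ℝ) : ℂ)) → ∀ i, |z i - eval y (P c i)| ≤ ε := by
    intro c y z hy hz i
    have h1 := hP2 c i y hy
    rw [hz i, ← Complex.ofReal_mul, mul_div_cancel₀ _ hK0.ne', Complex.ofReal_re] at h1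
    exact h1
  -- the good classes
  obtain ⟨bad, hbd⟩ : ∃ bad : Finset (Cod (d + 1) (Rw (d + 1) D') N L₀),
      bad = Finset.univ.filter (fun c => ¬ ENNReal.ofReal θ ≤ volume (Tc (fam B r) K₁ c '' E c)) := ⟨_, rfl⟩
  have hcard : (Fintype.card (Cod (d + 1) (Rw (d + 1) D') N L₀) : ℝ) = nc * N ^ (d + 1) := by
    have h1 : Fintype.card (Cod (d + 1) (Rw (d + 1) D') N L₀) = nR (d + 1) D' ^ (d + 1) * (N ^ (d + 1) * (L₀ * L₀) ^ (d + 1)) := by
      rw [Fintype.card_prod, Fintype.card_prod, Fintype.card_fun, Fintype.card_fun, Fintype.card_fun, Fintype.card_fin,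
        Fintype.card_fin, Fintype.card_fin]
      rfl
    rw [h1, hnc]
    push_cast
    ring
  let Γ : Type := {c : Cod (d + 1) (Rw (d + 1) D') N L₀ // ENNReal.ofReal θ ≤ volume (Tc (fam B r) K₁ c '' E c)} ×
    Fin (d + 1)
  let e : Γ ≃ Fin (Fintype.card Γ) := Fintype.equivFin Γ
  refine ⟨(Reg (fam B r) K₁ \ ⋃ c, E c) ∪ ⋃ c ∈ bad, E c, Fintype.card Γ,
    fun i b => aeval (slq ρ (e.symm i).2) (P (e.symm i).1.1 b), ?_, ?_, ?_, ?_, ?_, ?_⟩
  · exact ((reg_meas _ _).diff (MeasurableSet.iUnion hE1)).union (Finset.measurableSet_biUnion _ fun c _ => hE1 c)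
  · -- the number of leaves
    have h1 : Fintype.card Γ ≤ Fintype.card (Cod (d + 1) (Rw (d + 1) D') N L₀) * (d + 1) := by
      show Fintype.card ({c : Cod (d + 1) (Rw (d + 1) D') N L₀ // ENNReal.ofReal θ ≤ volume (Tc (fam B r) K₁ c '' E c)} ×
        Fin (d + 1)) ≤ _
      rw [Fintype.card_prod, Fintype.card_fin]
      exact Nat.mul_le_mul_right _ (Fintype.card_subtype_le _)
    have h2 : (Fintype.card Γ : ℝ) ≤ (Fintype.card (Cod (d + 1) (Rw (d + 1) D') N L₀) : ℝ) * ((d + 1 : ℕ) : ℝ) := by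
      exact_mod_cast h1
    refine h2.trans ?_
    rw [hcard]
    calc nc * N ^ (d + 1) * ((d + 1 : ℕ) : ℝ) = (nc * ((d + 1 : ℕ) : ℝ)) * N ^ (d + 1) := by ring
      _ ≤ C * N ^ (d + 1) := mul_le_mul_of_nonneg_right C8 (by positivity)
  · -- the degrees
    intro i b
    refine (totalDegree_aeval_le _ (slq_deg ρ _) _).trans ?_
    rw [mul_one]
    exact hP1 _ _
  · -- the mass
    have hgq : ∀ x, gd (fam B r) x = GQ r A x := by
      intro x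
      rw [gd_fam, ← hB]
    refine (lintegral_union_le _ _ _).trans ?_
    simp only [hgq] at hbad
    have hcm' : C₀ * K₁ ^ (d + 1) * (1 + nc) = cm * κ ^ (d + 1) := by
      rw [hcm, hK₁, mul_pow]
      ring
    have h1 : ∫⁻ x in ⋃ c ∈ bad, E c, ENNReal.ofReal √(GQ r A x) ≤ ENNReal.ofReal (C₀ * K₁ ^ (d + 1) * nc * θ) := by
      have h2 := mass_small E hE1 (Tc (fam B r) K₁) (Td (fam B r) K₁) (fun c x => Tc_hasFDerivAt _ _ c x) (fun c => by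
        intro x hx y hy hxy
        funext j
        have e1 := (hcod c).hG x hx j
        have e2 := (hcod c).hG y hy j
        rw [hxy, e2] at e1
        have e3 : y j / K₁ = x j / K₁ := by exact_mod_cast e1
        rw [div_left_inj' hK0.ne'] at e3
        exact e3.symm) (fun x => √(GQ r A x)) (a := C₀ * K₁ ^ (d + 1) / N ^ (d + 1)) (θ := θ) (by positivity) (by
        intro c x hx
        have e1 := (hcod c).lT x hx
        rw [hgq] at e1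
        rw [div_mul_eq_mul_div, le_div_iff₀ (by positivity), mul_comm]
        exact e1) bad (by
        intro c hc
        rw [hbd, Finset.mem_filter] at hc
        exact (not_le.mp hc.2).le)
      refine h2.trans (ENNReal.ofReal_le_ofReal ?_)
      have h3 : (bad.card : ℝ) ≤ nc * N ^ (d + 1) := by
        rw [← hcard]
        exact_mod_cast Finset.card_le_univ bad
      calc (bad.card : ℝ) * (C₀ * K₁ ^ (d + 1) / N ^ (d + 1) * θ) ≤
            nc * N ^ (d + 1) * (C₀ * K₁ ^ (d + 1) / N ^ (d + 1) * θ) := mul_le_mul_of_nonneg_right h3 (by positivity)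
        _ = _ := by field_simp
    refine (add_le_add hbad h1).trans ?_
    rw [← ENNReal.ofReal_add (by positivity) (by positivity)]
    apply ENNReal.ofReal_le_ofReal
    have h4 : C₀ * K₁ ^ (d + 1) / √N + C₀ * K₁ ^ (d + 1) * nc * θ ≤ C₀ * K₁ ^ (d + 1) * (1 + nc) * (1 / √N + θ) := by
      have e1 : 0 ≤ C₀ * K₁ ^ (d + 1) := by positivity
      have e2 : 0 ≤ 1 / √(N : ℝ) := by positivity
      have e3 : 1 / √(N : ℝ) + nc * θ ≤ (1 + nc) * (1 / √N + θ) := nl_mass e2 hnc0 hθ0.le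
      calc C₀ * K₁ ^ (d + 1) / √N + C₀ * K₁ ^ (d + 1) * nc * θ = C₀ * K₁ ^ (d + 1) * (1 / √N + nc * θ) := by ring
        _ ≤ C₀ * K₁ ^ (d + 1) * ((1 + nc) * (1 / √N + θ)) := mul_le_mul_of_nonneg_left e3 e1
        _ = _ := by ring
    refine h4.trans ?_
    rw [hcm']
    exact mul_le_mul_of_nonneg_right (mul_le_mul_of_nonneg_right C7 (by positivity)) (by positivity)
  · -- the cover
    intro p x hφ hp hx hxB j hj
    have hreg : x ∈ Reg (fam B r) K₁ := by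
      rw [hK₁]
      rw [hB] at hφ
      exact mem_Reg hBp hr hr1 hκ hφ hp hx
    have hxE : x ∈ ⋃ c, E c := by
      by_contra hcon
      exact hxB (Or.inl ⟨hreg, hcon⟩)
    obtain ⟨c, hc⟩ := mem_iUnion.mp hxE
    have hgood : ENNReal.ofReal θ ≤ volume (Tc (fam B r) K₁ c '' E c) := by
      by_contra hcon
      refine hxB (Or.inr (mem_iUnion₂.mpr ⟨c, ?_, hc⟩))
      rw [hbd, Finset.mem_filter]
      exact ⟨Finset.mem_univ _, hcon⟩
    have hne : volume (Tc (fam B r) K₁ c '' E c) ≠ 0 := by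
      intro h0
      rw [h0] at hgood
      exact absurd (lt_of_lt_of_le (ENNReal.ofReal_pos.mpr hθ0) hgood) (lt_irrefl _)
    rw [hB] at hj
    have hcc := hcod c
    rw [hK₁] at hcc hne
    obtain ⟨a, y, z, h1, h2, h3, h4⟩ := cover_one (m := d + 1) (D := D') hC₀ hC₁ (Nat.succ_le_succ (Nat.zero_le d)) hpt
      hNpos hD' B hBp hr hr1 hκ hτ0 hτ1 c₂ hc₂ hNτ c (E c) (G c) hcc hne x hc j hj
    rw [← hρ] at h2
    rw [← hK₁] at h4
    obtain ⟨Y, hY1, hY2⟩ := exists_slp (by linarith : 0 < ρ) a y h1 h2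
    refine ⟨e ⟨⟨c, hgood⟩, a⟩, Y, z, hY1, h3, fun b => ?_⟩
    have h5 := hPz c y z h2 h4 b
    show |z b - eval Y (aeval (slq ρ (e.symm (e ⟨⟨c, hgood⟩, a⟩)).2) (P (e.symm (e ⟨⟨c, hgood⟩, a⟩)).1.1 b))| ≤ _
    rw [Equiv.symm_apply_apply, eval_aevalR]
    have h6 : (fun i => eval Y (slq ρ a i)) = y := by
      funext i
      rw [eval_slq, hY2]
    show |z b - eval (fun i => eval Y (slq ρ a i)) (P c b)| ≤ _
    rw [h6]
    refine h5.trans ?_
    rw [hε]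
    calc C₂ * (3 * K₁) * x₀ ^ (K + 1) = (6 * C₂ * cP (d + 1) D') * κ * x₀ ^ (K + 1) := by rw [hK₁]; ring
      _ ≤ C * κ * (C * κ / √(N * τ)) ^ (K + 1) := by
          refine mul_le_mul (mul_le_mul_of_nonneg_right C2 (by linarith)) hx₀C (by positivity) (by positivity)
  · -- the bound
    intro i f hf H H₂ hH hH₂ hco hHb Y hY
    obtain ⟨c, hc⟩ : ∃ c, c = (e.symm i).1.1 := ⟨_, rfl⟩
    have hgood : ENNReal.ofReal θ ≤ volume (Tc (fam B r) K₁ c '' E c) := by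
      rw [hc]
      exact (e.symm i).1.2
    have hlb := leaf_bound (m := d + 1) (D := D) (M := (d + 1) * K) (P c) (hP1 c) (S := Tc (fam B r) K₁ c '' E c) (by
        rintro _ ⟨x, hx, rfl⟩
        exact ⟨fun a => ((hcod c).uT x hx a).1, fun a => ((hcod c).uT x hx a).2⟩) hθ0 hgood (V := c₃ * κ) (ε := ε)
      (ρ := ρ) (one_le_mul_of_one_le_of_one_le hc₃1 hκ) hε0 hρ1 f hf (H := H) hco (by
        rintro _ ⟨x, hx, rfl⟩
        have hxr : x ∈ Reg (fam B r) K₁ := (hcod c).reg x hx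
        have hxa : ∀ a, |x a| ≤ K₁ := by
          intro a
          have := hxr (Sum.inr a)
          change |eval x (X a)| ≤ _ at this
          rwa [eval_X] at this
        have hu : ∀ a, |Tc (fam B r) K₁ c x a| ≤ ρ := by
          intro a
          have := (hcod c).uT x hx a
          rw [abs_le]
          constructor <;> linarith [this.1, this.2]
        have hd := hPz c _ x hu ((hcod c).hG x hx)
        refine ⟨x, hHb x ?_ ?_, fun j => ?_, fun j => ?_, hd⟩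
        · have h1 := phi_Reg B hxr
          rw [← hB] at h1
          refine h1.trans ?_
          calc cPh (d + 1) D' * K₁ ^ 2 = (cPh (d + 1) D' * (2 * cP (d + 1) D') ^ 2) * κ ^ 2 := by rw [hK₁]; ring
            _ ≤ C * κ ^ 2 := mul_le_mul_of_nonneg_right C4 (by positivity)
        · intro a
          refine (hxa a).trans ?_
          rw [hK₁]
          exact mul_le_mul_of_nonneg_right C5 (by linarith)
        · refine (hxa j).trans ?_
          rw [hc₃, hK₁]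
          have e1 : 2 * cP (d + 1) D' ≤ (1 + 3 * C₂) * (2 * cP (d + 1) D') := by
            rw [mul_comm (1 + 3 * C₂)]
            exact nl_mul1 (by linarith) (by linarith)
          exact mul_le_mul_of_nonneg_right e1 (by linarith)
        · have e1 := hd j
          rw [abs_sub_comm] at e1
          have e2 : |eval (Tc (fam B r) K₁ c x) (P c j)| ≤ |eval (Tc (fam B r) K₁ c x) (P c j) - x j| + |x j| := by
            have := abs_add_le (eval (Tc (fam B r) K₁ c x) (P c j) - x j) (x j)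
            rwa [sub_add_cancel] at this
          have e3 : c₃ * κ = K₁ + 3 * C₂ * K₁ := by rw [hc₃, hK₁]; ring
          rw [e3]
          linarith [hxa j]) (slp ρ (e.symm i).2 Y) (slp_le (by linarith) _ hY)
    have h6 : (fun a => eval Y (aeval (slq ρ (e.symm i).2) (P (e.symm i).1.1 a))) =
        fun j => eval (slp ρ (e.symm i).2 Y) (P c j) := by
      funext j
      rw [eval_aevalR, hc]
      congr 2
      funext b
      exact eval_slq _ _ _ _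
    show |eval (fun a => eval Y (aeval (slq ρ (e.symm i).2) (P (e.symm i).1.1 a))) f| ≤ _
    rw [h6]
    refine hlb.trans ?_
    rw [← hcr, ← hk, hρ]
    have hnum := num_bound (κ := κ) (τ := τ) (θ := θ) (c₂ := c₂) (c₄ := c₄) (cr := cr)
      (a := Fintype.card (Mon (d + 1) D) * D * H₂ * (c₃ * κ) ^ D * ε) (H := H) (H₂ := H₂)
      (X := (C * κ / √(N * τ)) ^ (K + 1)) (k := k) (L := k + (D + 1)) (D := D) hκ hτ0 hτ1 hθ0 hθ1 hc₂1 hc₄0
      (by linarith) hH hH₂ (by positivity) (by omega) (by omega) (by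
        rw [hε, hc₄, hK₁, mul_pow]
        calc (Fintype.card (Mon (d + 1) D) : ℝ) * D * H₂ * (c₃ ^ D * κ ^ D) * (C₂ * (3 * (2 * cP (d + 1) D' * κ)) * x₀ ^ (K + 1))
            = (Fintype.card (Mon (d + 1) D) * D * c₃ ^ D * (6 * C₂ * cP (d + 1) D')) * κ ^ (D + 1) * H₂ * x₀ ^ (K + 1) := by
              ring
          _ ≤ _ := mul_le_mul_of_nonneg_left hx₀C (by positivity))
    refine hnum.trans ?_
    have h7 : 0 ≤ (κ / (τ * θ)) ^ (k + (D + 1)) := by positivity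
    have h8 : 0 ≤ H + κ ^ (k + (D + 1)) * H₂ * (C * κ / √(N * τ)) ^ (K + 1) := by positivity
    exact mul_le_mul_of_nonneg_right (mul_le_mul_of_nonneg_right C6 h7) h8

/-- ROW SLICE, from the point on the slice -/
theorem slice_of (hPt : ∀ m D, PtP m D) (d D D' K : ℕ) : SliceP d D' D K := by
  rcases Nat.eq_zero_or_pos D' with h | h
  · rw [h]
    exact slice_zero d D K
  · exact slice_pos D K h (hPt _ _)

end Pool.Agent.Helper54.SLC
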