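import Pool.Agent.Helper54.SLC.Apx
import Pool.Agent.Helper95.LF.Det

/-! SLICE, piece 3: the family of a form; the steep row of the best minor; the polynomials of a chart; the mass of the
small classes. -/

set_option autoImplicit false

namespace Pool.Agent.Helper54.SLC

open MvPolynomial Matrix MeasureTheory Set Metric
open Pool.Agent.Helper95.LF Pool.Agent.Helper3.LF Pool.Agent.Helper84.MT Pool.Agent.Helper76.RL

variable {m D : ℕ}

lemma jac_fam (C : Matrix (Mon m D) (Mon m D) ℝ) (r : ℝ) (x : Fin m → ℝ) :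
    (jac (fam C r) x).transpose * jac (fam C r) x = 1 + Jq r (C.transpose * C) x := by
  ext a b
  rw [Matrix.add_apply, Jq_apply, Matrix.mul_apply, Fintype.sum_sum_type, add_comm]
  congr 1
  · rw [Matrix.one_apply]
    have h1 : ∀ c : Fin m, (jac (fam C r) x).transpose a (Sum.inr c) * jac (fam C r) x (Sum.inr c) b =
        (if c = a then 1 else 0) * (if c = b then 1 else 0) := by
      intro c
      have h2 : ∀ d : Fin m, jac (fam C r) x (Sum.inr c) d = if c = d then 1 else 0 := by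
        intro d
        show eval x (pderiv d (X c)) = _
        rw [pderiv_X]
        by_cases h : c = d
        · subst h
          simp
        · rw [if_neg h, Pi.single_eq_of_ne h, map_zero]
      rw [Matrix.transpose_apply, h2, h2]
    rw [Finset.sum_congr rfl (fun c _ => h1 c)]
    simp [eq_comm]
  · rw [Fintype.sum_prod_type, Finset.sum_comm]
    refine Finset.sum_congr rfl fun j _ => ?_
    rw [← Matrix.mulVec_mulVec, Matrix.dotProduct_mulVec, Matrix.vecMul_transpose]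
    unfold dotProduct
    refine Finset.sum_congr rfl fun k _ => ?_
    have h3 : ∀ d : Fin m, jac (fam C r) x (Sum.inl (k, j)) d = (C *ᵥ Pool.Agent.Helper3.LF.dd d (nodp D x r j)) k := by
      intro d
      show eval x (pderiv d (trp D r j (pol (C k)))) = _
      rw [pderiv_trp, eval_trp, eval_pderiv_pol]
      rfl
    rw [Matrix.transpose_apply, h3, h3]

/-- THE STEEP ROW of a minor which is comparable with the volume -/
theorem exists_steep {R : Type} [Fintype R] (ψ : R → MvPolynomial (Fin m) ℝ) (I : Fin m → R) (x : Fin m → ℝ)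
    (hmi : mi ψ I x ≠ 0) {C₁ : ℝ} (hg : gd ψ x ≤ C₁ * mi ψ I x ^ 2) (j : Fin m) :
    ∃ a : Fin m, ((jac ψ x).transpose * jac ψ x) j j ≤ C₁ * (m * (eval x (pderiv j (ψ (I a)))) ^ 2) := by
  classical
  set B := jac ψ x with hB
  set A := B.submatrix I id with hA
  have hdet : A.det ≠ 0 := hmi
  have hI : Function.Injective I := by
    intro i i' hii
    by_contra hne
    apply hdet
    apply Matrix.det_zero_of_row_eq hne
    funext k
    show B (I i) k = B (I i') k
    rw [hii]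
  have hA0 : ∀ v : Fin m → ℝ, A.mulVec v = 0 → v = 0 := fun v hv => Matrix.eq_zero_of_mulVec_eq_zero hdet hv
  have hB0 : ∀ v : Fin m → ℝ, B.mulVec v = 0 → v = 0 := by
    intro v hv
    apply hA0
    funext c
    exact congrFun hv (I c)
  have hpA := tm_pdM A hA0
  have hpB := tm_pdM B hB0
  have hle : ∀ v : Fin m → ℝ, v ⬝ᵥ ((A.transpose * A) *ᵥ v) ≤ v ⬝ᵥ ((B.transpose * B) *ᵥ v) := by
    intro v
    rw [dot_tm, dot_tm]
    have h1 : ∑ c, (A.mulVec v c) ^ 2 = ∑ ρ ∈ Finset.univ.image I, (B.mulVec v ρ) ^ 2 := by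
      rw [Finset.sum_image fun a _ b _ hab => hI hab]
      rfl
    rw [h1]
    exact Finset.sum_le_sum_of_subset_of_nonneg (Finset.subset_univ _) fun _ _ _ => sq_nonneg _
  set y : Fin m → ℝ := Pi.single j 1 with hy
  have hy0 : y ≠ 0 := by
    intro h
    have := congrFun h j
    rw [hy, Pi.single_eq_same] at this
    exact one_ne_zero this
  have hqA : y ⬝ᵥ ((A.transpose * A) *ᵥ y) = (A.transpose * A) j j := by
    rw [hy]
    simp
  have hqB : y ⬝ᵥ ((B.transpose * B) *ᵥ y) = (B.transpose * B) j j := by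
    rw [hy]
    simp
  have hAp : 0 < (A.transpose * A) j j := by
    rw [← hqA]
    exact hpA.2 y hy0
  have hBp : 0 < (B.transpose * B) j j := by
    rw [← hqB]
    exact hpB.2 y hy0
  have h1 := det_gain hpA hpB.1 hle hy0 (c := (B.transpose * B) j j / (A.transpose * A) j j) (by
    rw [hqA, hqB, div_mul_cancel₀ _ hAp.ne'])
  have h2 : (A.transpose * A).det = mi ψ I x ^ 2 := by
    rw [Matrix.det_mul, Matrix.det_transpose, ← pow_two]
    rfl
  have h3 : (B.transpose * B).det = gd ψ x := rfl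
  rw [h2, h3] at h1
  have hm2 : 0 < mi ψ I x ^ 2 := by positivity
  have h4 : (B.transpose * B) j j / (A.transpose * A) j j ≤ C₁ := le_of_mul_le_mul_right (h1.trans hg) hm2
  rw [div_le_iff₀ hAp] at h4
  have hC1 : 0 < C₁ := by
    by_contra hc
    push Not at hc
    have : C₁ * (A.transpose * A) j j ≤ 0 := mul_nonpos_of_nonpos_of_nonneg hc hAp.le
    linarith
  have h5 : (A.transpose * A) j j = ∑ a, (eval x (pderiv j (ψ (I a)))) ^ 2 := by
    rw [Matrix.mul_apply]
    refine Finset.sum_congr rfl fun a _ => ?_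
    rw [Matrix.transpose_apply, pow_two]
    rfl
  obtain ⟨a, -, ha⟩ := Finset.exists_max_image (Finset.univ : Finset (Fin m))
    (fun a => (eval x (pderiv j (ψ (I a)))) ^ 2) ⟨j, Finset.mem_univ _⟩
  refine ⟨a, h4.trans (mul_le_mul_of_nonneg_left ?_ hC1.le)⟩
  rw [h5]
  refine (Finset.sum_le_card_nsmul _ _ _ fun b hb => ha b hb).trans (le_of_eq ?_)
  rw [nsmul_eq_mul, Finset.card_univ, Fintype.card_fin]

/-! ### the region -/

/-- growth constant -/
noncomputable def cGr (m D : ℕ) : ℝ := Cm m D * 2 ^ (m * D) + 1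

lemma cGr_two (m D : ℕ) : 2 ≤ cGr m D := by
  unfold cGr
  have h1 := Cm_one m D
  have h2 : (1 : ℝ) ≤ 2 ^ (m * D) := one_le_pow₀ (by norm_num)
  nlinarith

lemma fam_near (C : Matrix (Mon m D) (Mon m D) ℝ) {r K : ℝ} (hr : 0 < r) (hr1 : r ≤ 1) (hK : 1 ≤ K) {x x' : Fin m → ℝ}
    (hx : x ∈ Reg (fam C r) K) (h : ∀ i, |x' i - x i| ≤ r) (ρ : Rw m D) : |eval x' (fam C r ρ)| ≤ cGr m D * K := by
  have hc := cGr_two m D
  rcases ρ with k | a
  · show |eval x' (trp D r k.2 (pol (C k.1)))| ≤ _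
    rw [eval_trp]
    have h1 := cell_val D (pol (C k.1)) (pol_deg _) x r 2 K hr (by norm_num) (fun j => by
      have := hx (Sum.inl (k.1, j))
      change |eval x (trp D r j (pol (C k.1)))| ≤ _ at this
      rwa [eval_trp] at this) (nodp D x' r k.2) (fun i => by
      have e1 : nodp D x' r k.2 i - x i = (x' i - x i) + r * nod D (k.2 i) := by
        unfold nodp
        ring
      rw [e1]
      refine (abs_add_le _ _).trans ?_
      have h2 : |r * nod D (k.2 i)| ≤ r := by
        rw [abs_mul, abs_of_pos hr, abs_of_nonneg (nod_nonneg D _)]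
        calc r * nod D (k.2 i) ≤ r * 1 := mul_le_mul_of_nonneg_left (nod_le D _ (Nat.le_of_lt_succ (k.2 i).2)) hr.le
          _ = r := mul_one _
      have := h i
      linarith)
    refine h1.trans ?_
    unfold cGr
    nlinarith
  · show |eval x' (X a)| ≤ _
    rw [eval_X]
    have h1 := hx (Sum.inr a)
    change |eval x (X a)| ≤ _ at h1
    rw [eval_X] at h1
    have h2 : |x' a| ≤ |x' a - x a| + |x a| := by
      have := abs_add_le (x' a - x a) (x a)
      rwa [sub_add_cancel] at this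
    have h3 := h a
    nlinarith

/-- constant of `phi` on the region -/
noncomputable def cPh (m D : ℕ) : ℝ := Fintype.card (Mon m D) * nn m D

lemma phi_Reg (C : Matrix (Mon m D) (Mon m D) ℝ) {r K : ℝ} {x : Fin m → ℝ} (hx : x ∈ Reg (fam C r) K) :
    phi r (C.transpose * C) x ≤ cPh m D * K ^ 2 := by
  rw [phi_rows]
  have h1 : ∀ k ∈ (Finset.univ : Finset (Mon m D)), ph D (pol (C k)) r x ≤ nn m D * K ^ 2 := by
    intro k _
    unfold ph
    have h2 : ∀ j ∈ (Finset.univ : Finset (Fin m → Fin (D + 1))), (eval (nodp D x r j) (pol (C k))) ^ 2 ≤ K ^ 2 := by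
      intro j _
      have := hx (Sum.inl (k, j))
      change |eval x (trp D r j (pol (C k)))| ≤ _ at this
      rw [eval_trp] at this
      rw [← sq_abs]
      exact pow_le_pow_left₀ (abs_nonneg _) this 2
    refine (Finset.sum_le_card_nsmul _ _ _ h2).trans (le_of_eq ?_)
    rw [nsmul_eq_mul, card_nodes]
  refine (Finset.sum_le_card_nsmul _ _ _ h1).trans (le_of_eq ?_)
  rw [nsmul_eq_mul, Finset.card_univ]
  unfold cPh
  ring

/-! ### the polynomials of a chart -/

variable {R : Type}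

/-- the polynomials of the rescaled map of a code -/
noncomputable def Tp (ψ : R → MvPolynomial (Fin m) ℝ) (K : ℝ) {N L : ℕ} (c : Cod m R N L) (b : Fin m) :
    MvPolynomial (Fin m) ℝ := C (N : ℝ) * thp ψ K c.1 b - C ((c.2.1 b : ℕ) : ℝ)

lemma eval_Tp (ψ : R → MvPolynomial (Fin m) ℝ) (K : ℝ) {N L : ℕ} (c : Cod m R N L) (b : Fin m) (x : Fin m → ℝ) :
    eval x (Tp ψ K c b) = Tc ψ K c x b := by
  unfold Tp Tc
  rw [map_sub, map_mul, eval_C, eval_C, eval_thp]

lemma Tp_deg (ψ : R → MvPolynomial (Fin m) ℝ) {D : ℕ} (hψ : ∀ ρ, (ψ ρ).totalDegree ≤ D) (K : ℝ) {N L : ℕ}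
    (c : Cod m R N L) (b : Fin m) : (Tp ψ K c b).totalDegree ≤ D := by
  unfold Tp
  refine (totalDegree_sub_C_le _ _).trans ((totalDegree_mul _ _).trans ?_)
  rw [totalDegree_C, zero_add]
  exact thp_deg ψ hψ K c.1 b

lemma pderiv_Tp (ψ : R → MvPolynomial (Fin m) ℝ) (K : ℝ) {N L : ℕ} (c : Cod m R N L) (b i : Fin m) (x : Fin m → ℝ) :
    eval x (pderiv i (Tp ψ K c b)) = N / (2 * K) * eval x (pderiv i (ψ (c.1 b))) := by
  unfold Tp thp
  rw [map_sub, pderiv_C, sub_zero, pderiv_C_mul, map_add, pderiv_C, zero_add, pderiv_C_mul, map_mul, map_mul, eval_C,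
    eval_C]
  ring

lemma det_Tp (ψ : R → MvPolynomial (Fin m) ℝ) (K : ℝ) {N L : ℕ} (c : Cod m R N L) (x : Fin m → ℝ) :
    (Matrix.of fun b i => eval x (pderiv i (Tp ψ K c b))).det = (Td ψ K c x).det := by
  rw [Td_det]
  have h1 : (Matrix.of fun b i => eval x (pderiv i (Tp ψ K c b))) = ((N : ℝ) / (2 * K)) • (jac ψ x).submatrix c.1 id := by
    ext b i
    rw [Matrix.of_apply, pderiv_Tp]
    rfl
  rw [h1, Matrix.det_smul, Fintype.card_fin]
  unfold mi
  rw [← mul_assoc, ← mul_pow, mul_one_div]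

/-- the volume is controlled by the minor of the code -/
lemma gd_le (ψ : R → MvPolynomial (Fin m) ℝ) {K : ℝ} (hK : 0 < K) {N L : ℕ} (hN : 0 < N) (c : Cod m R N L)
    (x : Fin m → ℝ) [Fintype R] (hg0 : 0 ≤ gd ψ x) {C : ℝ} (hC : 0 ≤ C)
    (h : N ^ m * √(gd ψ x) ≤ C * K ^ m * |(Td ψ K c x).det|) : gd ψ x ≤ C ^ 2 * mi ψ c.1 x ^ 2 := by
  have hN' : (0 : ℝ) < N := by exact_mod_cast hN
  rw [Td_det, abs_mul, abs_of_nonneg (by positivity : (0 : ℝ) ≤ (N : ℝ) ^ m), abs_mul,
    abs_of_nonneg (by positivity : (0 : ℝ) ≤ (1 / (2 * K)) ^ m)] at h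
  have h1 : C * K ^ m * ((N : ℝ) ^ m * ((1 / (2 * K)) ^ m * |mi ψ c.1 x|)) =
      N ^ m * ((C / 2 ^ m) * |mi ψ c.1 x|) := by
    rw [div_pow, one_pow, mul_pow]
    field_simp
  rw [h1] at h
  have h2 : √(gd ψ x) ≤ C * |mi ψ c.1 x| := by
    refine (le_of_mul_le_mul_left h (by positivity)).trans (mul_le_mul_of_nonneg_right ?_ (abs_nonneg _))
    apply div_le_self hC
    exact one_le_pow₀ (by norm_num)
  calc gd ψ x = √(gd ψ x) ^ 2 := (Real.sq_sqrt hg0).symm
    _ ≤ (C * |mi ψ c.1 x|) ^ 2 := pow_le_pow_left₀ (Real.sqrt_nonneg _) h2 2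
    _ = _ := by rw [mul_pow, sq_abs]

/-! ### the mass of the small classes -/

lemma mass_small {γ : Type} (E : γ → Set (Fin m → ℝ)) (hE : ∀ c, MeasurableSet (E c))
    (T : γ → (Fin m → ℝ) → Fin m → ℝ) (T' : γ → (Fin m → ℝ) → (Fin m → ℝ) →L[ℝ] (Fin m → ℝ))
    (hT : ∀ c x, HasFDerivAt (T c) (T' c x) x) (hinj : ∀ c, InjOn (T c) (E c)) (φ : (Fin m → ℝ) → ℝ) {a θ : ℝ}
    (ha : 0 ≤ a) (hφ : ∀ c, ∀ x ∈ E c, φ x ≤ a * |(T' c x).det|) (bad : Finset γ)
    (hb : ∀ c ∈ bad, volume (T c '' E c) ≤ ENNReal.ofReal θ) :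
    ∫⁻ x in ⋃ c ∈ bad, E c, ENNReal.ofReal (φ x) ≤ ENNReal.ofReal (bad.card * (a * θ)) := by
  classical
  have h1 : ∀ c ∈ bad, ∫⁻ x in E c, ENNReal.ofReal (φ x) ≤ ENNReal.ofReal (a * θ) := by
    intro c hc
    calc ∫⁻ x in E c, ENNReal.ofReal (φ x) ≤ ∫⁻ x in E c, ENNReal.ofReal a * ENNReal.ofReal |(T' c x).det| := by
          refine setLIntegral_mono' (hE c) fun x hx => ?_
          rw [← ENNReal.ofReal_mul ha]
          exact ENNReal.ofReal_le_ofReal (hφ c x hx)
      _ = ENNReal.ofReal a * ∫⁻ x in E c, ENNReal.ofReal |(T' c x).det| :=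
          lintegral_const_mul' _ _ ENNReal.ofReal_ne_top
      _ = ENNReal.ofReal a * volume (T c '' E c) := by
          rw [lintegral_abs_det_fderiv_eq_addHaar_image volume (hE c) (fun x _ => (hT c x).hasFDerivWithinAt) (hinj c)]
      _ ≤ ENNReal.ofReal a * ENNReal.ofReal θ := mul_le_mul_right (hb c hc) _
      _ = ENNReal.ofReal (a * θ) := (ENNReal.ofReal_mul ha).symm
  have h2 : ∫⁻ x in ⋃ c ∈ bad, E c, ENNReal.ofReal (φ x) ≤ ∑ c ∈ bad, ∫⁻ x in E c, ENNReal.ofReal (φ x) := by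
    clear hb h1
    induction bad using Finset.induction_on with
    | empty => simp
    | insert c s hc ih =>
      rw [Finset.set_biUnion_insert, Finset.sum_insert hc]
      exact (lintegral_union_le _ _ _).trans (add_le_add le_rfl ih)
  refine h2.trans ((Finset.sum_le_card_nsmul _ _ _ h1).trans (le_of_eq ?_))
  rw [nsmul_eq_mul, ← ENNReal.ofReal_natCast, ← ENNReal.ofReal_mul (Nat.cast_nonneg _)]

end Pool.Agent.Helper54.SLC
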